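import Pool.Agent.MP_c853c5_nt.S.Basic
import Pool.Agent.MP_c853c5_nt.S.Defs2

/-!
The mixed fourth moment as an extra constraint of the linear programme.
-/

set_option autoImplicit false

open Finset Filter

namespace Pool.Agent.MP_c853c5_nt.R

open Pool.Agent.MP_2a1f0e_nt Pool.Agent.MP_2a1f0e_nt.GM Pool.Agent.MP_2a1f0e_nt.DH
open Pool.Agent.MP_c853c5_nt.E

/-- the smooth sum -/
noncomputable def Zo (y t : ℝ) : ℂ := PP ⌊2 * y⌋₊ (fun n => (om ((n : ℝ) / y) : ℂ)) t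

/-- the mixed fourth moment on a grid -/
def WattIn : Prop := ∀ ε : ℝ, 0 < ε → ∃ C : ℝ, 0 < C ∧
  ∀ (T y u : ℝ) (N : ℕ) (α : ℕ → ℂ) (S : Finset ℤ), 2 ≤ T → 0 < y → y ≤ T → 1 ≤ N →
    (N : ℝ) ≤ T → (∀ n, ‖α n‖ ≤ 1) → (∀ m ∈ S, T ≤ u + m ∧ u + m ≤ 2 * T) →
    ∑ m ∈ S, ‖Zo y (u + m)‖ ^ 4 * ‖DP N α (u + m)‖ ^ 2 ≤
      C * T ^ ε * (T + √T * (N : ℝ) ^ 2) * y ^ 2 * N * (1 + y ^ 2 / T) ^ 2

/-- a bound for the mixed moments of `G` on `[a, b]` -/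
def WB (G : ℝ → ℝ) (a b : ℝ) (L : ℕ) (Ω : ℝ) : Prop :=
  ∀ (u : ℝ) (S : Finset ℤ) (c : ℕ → ℂ), (∀ n, ‖c n‖ ≤ 1) → (∀ m ∈ S, a ≤ u + m ∧ u + m ≤ b) →
    ∑ m ∈ S, G (u + m) ^ 4 * ‖NP L c m‖ ^ 2 ≤ Ω

/-- the mixed moment for a smooth factor of any length, at all heights -/
def WmStmt : Prop := ∀ δ ε : ℝ, 0 < δ → δ ≤ 1 / 10 → 0 < ε → ∃ γ : ℝ, 0 < γ ∧
  ∀ᶠ x : ℝ in atTop, ∀ (τ y : ℝ) (L : ℕ), 1 / 3 ≤ τ → τ ≤ 1 / 2 → 5 ≤ y → y ≤ 8 * x → 1 ≤ L →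
    (L : ℝ) ≤ x ^ (τ / 2 + γ) →
    WB (fun t => ‖ZS y t‖ / √y) (x ^ δ) (x ^ τ * Real.log x ^ 3) L
      (x ^ ε * (x ^ τ + x ^ (τ / 2) * (L : ℝ) ^ 2))

/-- the extra constraint for the smooth slot `i` -/
def XW {ι : Type} [Fintype ι] (K : ℕ) (τ : ℝ) (b : ι → ℝ) (i : ι) (r : ℝ) (v : ι → ℝ) : Prop :=
  ∀ κ : ι → ℕ, (∀ j, κ j ≤ K) →
    r + 4 * v i + 2 * ∑ j, (κ j : ℝ) * v j ≤ max τ (τ / 2 + 2 * ∑ j, (κ j : ℝ) * b j)

/-- the linear programme with the extra constraints; the slots in `sm` are smooth -/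
def EvalW {ι : Type} [Fintype ι] (sm : ι → Prop) (K : ℕ) (τ s : ℝ) (b : ι → ℝ) : Prop :=
  ∀ (r : ℝ) (v : ι → ℝ), 0 ≤ r → r ≤ τ → (∀ j, v j ≤ b j / 2) → Cons K τ b r v →
    (∀ i, sm i → XW K τ b i r v) → r + ∑ j, v j ≤ s

/-- general factors of sizes `a` and one smooth factor of size `b` -/
def E1ptW {ι : Type} [Fintype ι] (τ η : ℝ) (K : ℕ) (a : ι → ℝ) (b : ℝ) : Prop :=
  1 / 10 ≤ b ∧ EvalW (fun o => o = none) K τ (1 / 2 - η) fun o : Option ι => o.elim (av τ b) a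

/-- general factors of sizes `a` and two smooth factors -/
def E12ptW {ι : Type} [Fintype ι] (τ η : ℝ) (K : ℕ) (a : ι → ℝ) (b1 b2 : ℝ) : Prop :=
  1 / 10 ≤ b1 ∧ 1 / 10 ≤ b2 ∧ EvalW (fun o => o = none ∨ o = some none) K τ (1 / 2 - η)
    fun o : Option (Option ι) => o.elim (av τ b1) fun o' => o'.elim (av τ b2) a

/-- `S.E1D` with the weaker hypothesis `E1ptW` -/
def E1DW : Prop := ∀ (ι : Type) [Fintype ι] (τ t η : ℝ) (K : ℕ), 1 / 3 ≤ t → t < τ →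
  τ ≤ 1 / 2 → 0 < η → η ≤ 1 / 1000 → ∃ γ : ℝ, 0 < γ ∧ ∀ᶠ x : ℝ in atTop,
    ∀ (a : ι → ℝ) (b : ℝ) (N : ι → ℕ) (g : ι → S.AF) (d : ℕ) (y : ℝ),
      (∀ i, 0 ≤ a i ∧ a i ≤ 1) → b ≤ 1 → E1ptW τ η K a b → (∀ i, S.Slot (N i) (g i)) →
      (∀ i, (N i : ℝ) ≤ x ^ (a i + γ)) → x ^ (b - (τ - t) / 2) ≤ y → y ≤ x ^ (b + γ) →
      1 ≤ y → 1 ≤ d → (d : ℝ) * (∏ i, (N i : ℝ)) * y ≤ 2 * x →
      |S.Dl t x (S.sgl d * (∏ i, g i) * S.omz y)| ≤ x ^ (1 - η / 5)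

/-- `S.E12D` with the weaker hypothesis `E12ptW` -/
def E12DW : Prop := ∀ (ι : Type) [Fintype ι] (τ t η : ℝ) (K : ℕ), 1 / 3 ≤ t → t < τ →
  τ ≤ 1 / 2 → 0 < η → η ≤ 1 / 1000 → ∃ γ : ℝ, 0 < γ ∧ ∀ᶠ x : ℝ in atTop,
    ∀ (a : ι → ℝ) (b1 b2 : ℝ) (N : ι → ℕ) (g : ι → S.AF) (d : ℕ) (y1 y2 : ℝ),
      (∀ i, 0 ≤ a i ∧ a i ≤ 1) → b1 ≤ 1 → b2 ≤ 1 → E12ptW τ η K a b1 b2 →
      (∀ i, S.Slot (N i) (g i)) → (∀ i, (N i : ℝ) ≤ x ^ (a i + γ)) →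
      x ^ (b1 - (τ - t) / 2) ≤ y1 → y1 ≤ x ^ (b1 + γ) →
      x ^ (b2 - (τ - t) / 2) ≤ y2 → y2 ≤ x ^ (b2 + γ) →
      1 ≤ y1 → 1 ≤ y2 → 1 ≤ d → (d : ℝ) * (∏ i, (N i : ℝ)) * y1 * y2 ≤ 2 * x →
      |S.Dl t x (S.sgl d * (∏ i, g i) * S.omz y1 * S.omz y2)| ≤ x ^ (1 - η / 5)

section LP

variable {ι ι' : Type} [Fintype ι] [Fintype ι'] {τ τ' η η' s s' : ℝ} {K K' : ℕ}
  {sm : ι → Prop}

lemma XW.mono {b b' v : ι → ℝ} {i : ι} {r : ℝ} (h : XW K τ b i r v) (hτ : τ ≤ τ')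
    (hb : ∀ j, b j ≤ b' j) : XW K τ' b' i r v := fun κ hκ =>
  (h κ hκ).trans (max_le_max hτ (by
    linarith [sum_le_sum fun j (_ : j ∈ univ) =>
      mul_le_mul_of_nonneg_left (hb j) (Nat.cast_nonneg (α := ℝ) (κ j))]))

lemma EvalW.of_eval {b : ι → ℝ} (h : S.Eval τ 0 K b s) : EvalW sm K τ s b :=
  fun r v h0 h1 h2 h3 _ => by simpa using h r v h0 h1 h2 h3

lemma E1ptW.of_pt {a : ι → ℝ} {b : ℝ} (h : S.E1pt τ η K a b) : E1ptW τ η K a b :=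
  ⟨h.1, EvalW.of_eval h.2⟩

lemma E12ptW.of_pt {a : ι → ℝ} {b1 b2 : ℝ} (h : S.E12pt τ η K a b1 b2) :
    E12ptW τ η K a b1 b2 := ⟨h.1, h.2.1, EvalW.of_eval h.2.2⟩

/-- shorter factors and a smaller height are easier -/
lemma EvalW.anti {b b' : ι → ℝ} (h : EvalW sm K τ' s b') (hτ : τ ≤ τ')
    (hb : ∀ j, b j ≤ b' j) : EvalW sm K τ s b := fun r v h0 h1 h2 h3 h4 =>
  h r v h0 (h1.trans hτ) (fun j => by linarith [h2 j, hb j])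
    (fun κ hκ => (S.con_tau (h3 κ hκ) hτ (h0.trans h1)).mono
      (sum_le_sum fun j _ => mul_le_mul_of_nonneg_left (hb j) (Nat.cast_nonneg _)))
    fun i hi => (h4 i hi).mono hτ hb

lemma EvalW.mono {b : ι → ℝ} (h : EvalW sm K τ s b) (hK : K ≤ K') (hs : s ≤ s') :
    EvalW sm K' τ s' b := fun r v h0 h1 h2 h3 h4 =>
  (h r v h0 h1 h2 (fun κ hκ => h3 κ fun j => (hκ j).trans hK)
    fun i hi κ hκ => h4 i hi κ fun j => (hκ j).trans hK).trans hs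

lemma E1ptW.mono {a : ι → ℝ} {b : ℝ} (h : E1ptW τ η K a b) (hK : K ≤ K') (hη : η' ≤ η) :
    E1ptW τ η' K' a b := ⟨h.1, h.2.mono hK (by linarith)⟩

lemma E12ptW.mono {a : ι → ℝ} {b1 b2 : ℝ} (h : E12ptW τ η K a b1 b2) (hK : K ≤ K')
    (hη : η' ≤ η) : E12ptW τ η' K' a b1 b2 := ⟨h.1, h.2.1, h.2.2.mono hK (by linarith)⟩

/-- slots may be merged into groups; a smooth group is one smooth slot -/
lemma EvalW.group [DecidableEq ι'] {sm' : ι' → Prop} {b : ι → ℝ} {b' : ι' → ℝ} (g : ι → ι')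
    (h : EvalW sm' K τ s b') (hb : ∀ i, ∑ j ∈ univ.filter (fun j => g j = i), b j ≤ b' i)
    (hs : ∀ i, sm' i → ∃ j, sm j ∧ ∀ j', g j' = i ↔ j' = j) : EvalW sm K τ s b := by
  intro r v h0 h1 h2 h3 h4
  have key : ∀ (κ : ι' → ℕ) (f : ι → ℝ),
      ∑ i, (κ i : ℝ) * ∑ j ∈ univ.filter (fun j => g j = i), f j = ∑ j, (κ (g j) : ℝ) * f j := by
    intro κ f
    rw [← sum_fiberwise univ g fun j => (κ (g j) : ℝ) * f j]
    refine sum_congr rfl fun i _ => ?_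
    rw [mul_sum]
    exact sum_congr rfl fun j hj => by rw [(mem_filter.1 hj).2]
  have := (h.anti le_rfl hb) r (fun i => ∑ j ∈ univ.filter (fun j => g j = i), v j) h0 h1
    (fun i => by
      rw [sum_div]
      exact sum_le_sum fun j _ => h2 j)
    (fun κ hκ => by
      rw [key, key]
      exact h3 (fun j => κ (g j)) fun j => hκ _)
    (fun i hi κ hκ => by
      obtain ⟨j, hj, hj'⟩ := hs i hi
      have e : univ.filter (fun j => g j = i) = {j} := by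
        ext j'
        simp [hj']
      rw [key, key]
      dsimp only
      rw [e, sum_singleton]
      exact h4 j hj (fun j => κ (g j)) fun j => hκ _)
  rwa [sum_fiberwise univ g v] at this

omit [Fintype ι'] in
lemma fib_W [DecidableEq ι'] (g : ι → ι') (f : Option ι → ℝ) (o : Option ι') :
    ∑ j ∈ univ.filter (fun j : Option ι => j.map g = o), f j =
      o.elim (f none) fun i => ∑ j ∈ univ.filter (fun j => g j = i), f (some j) := by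
  rw [sum_filter, Fintype.sum_option]
  cases o <;> simp [sum_filter]

/-- general factors may be merged into groups -/
lemma E1ptW.group [DecidableEq ι'] {a : ι → ℝ} {a' : ι' → ℝ} {b : ℝ} (g : ι → ι')
    (h : E1ptW τ η K a' b) (ha : ∀ i, ∑ j ∈ univ.filter (fun j => g j = i), a j ≤ a' i) :
    E1ptW τ η K a b :=
  ⟨h.1, h.2.group (Option.map g)
    (fun o => by
      rw [fib_W]
      cases o
      exacts [le_rfl, ha _])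
    fun _ hi => ⟨none, rfl, fun j => by rw [hi, Option.map_eq_none_iff]⟩⟩

lemma E12ptW.group [DecidableEq ι'] {a : ι → ℝ} {a' : ι' → ℝ} {b1 b2 : ℝ} (g : ι → ι')
    (h : E12ptW τ η K a' b1 b2) (ha : ∀ i, ∑ j ∈ univ.filter (fun j => g j = i), a j ≤ a' i) :
    E12ptW τ η K a b1 b2 :=
  ⟨h.1, h.2.1, h.2.2.group (Option.map (Option.map g))
    (fun o => by
      rw [fib_W]
      rcases o with _ | o
      · exact le_rfl
      · refine (fib_W g (fun o' => o'.elim (av τ b2) a) o).trans_le ?_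
        cases o
        exacts [le_rfl, ha _])
    (by
      rintro _ (rfl | rfl)
      · exact ⟨none, Or.inl rfl, fun j => Option.map_eq_none_iff⟩
      · exact ⟨some none, Or.inr rfl, by rintro (_ | _ | j) <;> simp⟩)⟩

end LP

end Pool.Agent.MP_c853c5_nt.R
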