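import Pool.Agent.MP_c853c5_nt.R.Ref

/-!
The reflected avatar.
-/

set_option autoImplicit false

open Finset

namespace Pool.Agent.MP_c853c5_nt.R

open Pool.Agent.MP_2a1f0e_nt Pool.Agent.MP_2a1f0e_nt.GM Pool.Agent.MP_2a1f0e_nt.DH MeasureTheory

theorem sc_stmt : ScStmt := by
  intro f a b hf0 d A hd
  obtain ⟨j, hj⟩ := exists_nat_ge ((A + 3) / d)
  rw [div_le_iff₀ hd] at hj
  obtain ⟨C, hC, h⟩ := pt_stmt f a b hf0 j
  refine ⟨C * (1 + 4 * 2 ^ j), by positivity, fun x y T L M t hy hyx hL hT hM ht1 ht2 => ?_⟩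
  have hx : 1 ≤ x := hy.trans hyx
  have hx0 : 0 < x := by linarith
  have hy0 : 0 < y := by linarith
  have hp : 1 ≤ x ^ d := Real.one_le_rpow hx hd.le
  have hI0 : 0 ≤ ∫ ξ : ℝ, kp ξ * ‖ZZ M (t + ξ)‖ :=
    integral_nonneg fun ξ => mul_nonneg (kp_pos ξ).le (norm_nonneg _)
  have hs : √y ≤ x := (Real.sqrt_le_left hy0.le |>.2 (by nlinarith)).trans hyx
  have hA : 0 < x ^ (-A) := Real.rpow_pos_of_pos hx0 _
  have hk : x ^ 3 ≤ x ^ (-A) * (x ^ d) ^ j := by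
    rw [← Real.rpow_natCast, ← Real.rpow_mul_natCast hx0.le, ← Real.rpow_add hx0]
    exact Real.rpow_le_rpow_of_exponent_le hx (by push_cast; linarith)
  have h1 : √y / (1 + |t|) ^ j ≤ x ^ (-A) := by
    rw [div_le_iff₀ (by positivity)]
    calc √y ≤ x ^ 3 := hs.trans (le_self_pow₀ hx (by norm_num))
      _ ≤ x ^ (-A) * (x ^ d) ^ j := hk
      _ ≤ x ^ (-A) * (1 + |t|) ^ j := by gcongr; linarith
  have h2 : √y * ((1 + |t|) / y) ^ 2 * ((1 + |t|) / (y * (M + 1))) ^ j ≤ 4 * 2 ^ j * x ^ (-A) := by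
    have h3 : (1 + |t|) / y ≤ 2 * x := by
      rw [div_le_iff₀ hy0]
      nlinarith
    have h4 : (1 + |t|) / (y * (M + 1)) ≤ 2 / x ^ d := by
      rw [div_le_div_iff₀ (by positivity) (by positivity)]
      nlinarith
    calc _ ≤ x * (2 * x) ^ 2 * (2 / x ^ d) ^ j := by gcongr
      _ = 4 * 2 ^ j * (x ^ 3 / (x ^ d) ^ j) := by rw [div_pow]; ring
      _ ≤ 4 * 2 ^ j * x ^ (-A) := by
        gcongr
        rw [div_le_iff₀ (by positivity)]
        exact hk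
  refine (h y L M t hy hL).trans ?_
  have h5 : (0 : ℝ) ≤ 4 * 2 ^ j := by positivity
  nlinarith [mul_nonneg (mul_nonneg hC.le h5) hI0, mul_le_mul_of_nonneg_left h1 hC.le,
    mul_le_mul_of_nonneg_left h2 hC.le]

lemma exists_shift {G : ℝ → ℝ} (hi : Integrable fun ξ => kp ξ * G ξ) (h0 : ∀ ξ, 0 ≤ G ξ) :
    ∃ ξ, ∫ ξ, kp ξ * G ξ ≤ 8 * G ξ := by
  by_contra hc
  push Not at hc
  have h1 : ∫ ξ, kp ξ * G ξ ≤ ∫ ξ, kp ξ * ((∫ ξ, kp ξ * G ξ) / 8) :=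
    integral_mono hi (integrable_kp.mul_const _) fun ξ =>
      mul_le_mul_of_nonneg_left (by linarith [hc ξ]) (kp_pos ξ).le
  rw [integral_mul_const, integral_kp] at h1
  have h2 := hc 0
  have h3 := h0 0
  nlinarith [Real.pi_le_four]

theorem av_stmt : AvStmt := by
  intro f a b hf0 d A hd
  obtain ⟨C, hC, h⟩ := sc_stmt f a b hf0 d A hd
  refine ⟨8 * C + 1, by linarith, fun x y T L M hy hyx hL hT hM ι s w u hw hu => ?_⟩
  have hA : 0 < x ^ (-A) := Real.rpow_pos_of_pos (by linarith) _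
  have hi : ∀ i ∈ s, Integrable fun ξ => w i * (kp ξ * ‖ZZ M (u i + ξ)‖) := fun i _ =>
    (int_kpZ_Refl M (u i)).const_mul _
  have e : (fun ξ => kp ξ * ∑ i ∈ s, w i * ‖ZZ M (u i + ξ)‖) =
      fun ξ => ∑ i ∈ s, w i * (kp ξ * ‖ZZ M (u i + ξ)‖) := by
    funext ξ
    rw [mul_sum]
    exact sum_congr rfl fun i _ => by ring
  obtain ⟨ξ, hξ⟩ := exists_shift (G := fun ξ => ∑ i ∈ s, w i * ‖ZZ M (u i + ξ)‖)
    (e ▸ integrable_finsetSum _ hi) fun ξ => sum_nonneg fun i hi' =>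
      mul_nonneg (hw i hi') (norm_nonneg _)
  rw [e, integral_finsetSum _ hi] at hξ
  simp only [integral_const_mul] at hξ
  refine ⟨fun l => ((8 * C : ℝ) : ℂ) * ((hf (l : ℝ) : ℂ) * pw (l : ℝ) ξ), fun l => ?_, ?_⟩
  · rw [norm_mul, norm_mul, norm_pw, mul_one, Complex.norm_real, Complex.norm_real,
      Real.norm_of_nonneg (hf_nonneg _), Real.norm_of_nonneg (by positivity)]
    nlinarith [hf_nonneg (l : ℝ)]
  have e2 : ∀ v, ‖PP M (fun l => ((8 * C : ℝ) : ℂ) * ((hf (l : ℝ) : ℂ) * pw (l : ℝ) ξ)) v‖ =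
      8 * C * ‖ZZ M (v + ξ)‖ := fun v => by
    rw [PP_smul, ← PP_add, norm_mul, Complex.norm_real, Real.norm_of_nonneg (by positivity), ZZ]
  simp only [e2]
  have h1 : ∑ i ∈ s, w i * ‖SZ f y L (u i)‖ ≤
      ∑ i ∈ s, (C * (w i * ∫ ξ, kp ξ * ‖ZZ M (u i + ξ)‖) + C * x ^ (-A) * w i) :=
    sum_le_sum fun i hi' => (mul_le_mul_of_nonneg_left
      (h x y T L M (u i) hy hyx hL hT hM (hu i hi').1 (hu i hi').2) (hw i hi')).trans_eq (by ring)
  rw [sum_add_distrib, ← mul_sum, ← mul_sum] at h1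
  have h2 : ∑ i ∈ s, w i * (8 * C * ‖ZZ M (u i + ξ)‖) =
      C * (8 * ∑ i ∈ s, w i * ‖ZZ M (u i + ξ)‖) := by
    rw [mul_sum, mul_sum]
    exact sum_congr rfl fun i _ => by ring
  have h3 : 0 ≤ ∑ i ∈ s, w i := sum_nonneg hw
  rw [h2]
  nlinarith [mul_le_mul_of_nonneg_left hξ hC.le, mul_nonneg hA.le h3,
    mul_nonneg hC.le (mul_nonneg hA.le h3)]

end Pool.Agent.MP_c853c5_nt.R
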