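import Pool.Agent.MP_2a1f0e_nt.DH.Basic
import Pool.Agent.MP_2a1f0e_nt.GM.Decay

/-!
Reflection of smooth zeta sums, with rapid decay.
-/

set_option autoImplicit false

open Finset

namespace Pool.Agent.MP_c853c5_nt.R

open Pool.Agent.MP_2a1f0e_nt Pool.Agent.MP_2a1f0e_nt.GM Pool.Agent.MP_2a1f0e_nt.DH

/-- a smooth weight that vanishes outside `(a, b)`, where `0 < a` -/
structure Sup (f : ℝ → ℝ) (a b : ℝ) : Prop where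
  pos : 0 < a
  sm : ContDiff ℝ (⊤ : ℕ∞) f
  z : ∀ x, x ≤ a ∨ b ≤ x → f x = 0

/-- the smooth zeta sum on the critical line -/
noncomputable def SZ (f : ℝ → ℝ) (y : ℝ) (L : ℕ) (t : ℝ) : ℂ :=
  PP L (fun l => ((f ((l : ℝ) / y) * hf (l : ℝ) : ℝ) : ℂ)) t

/-- pointwise reflection -/
def PtStmt : Prop := ∀ (f : ℝ → ℝ) (a b : ℝ), Sup f a b → ∀ j : ℕ, ∃ C : ℝ, 0 < C ∧
  ∀ (y : ℝ) (L M : ℕ) (t : ℝ), 1 ≤ y → b * y ≤ L →
    ‖SZ f y L t‖ ≤ C * ((∫ ξ : ℝ, kp ξ * ‖ZZ M (t + ξ)‖) + √y / (1 + |t|) ^ j +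
      √y * ((1 + |t|) / y) ^ 2 * ((1 + |t|) / (y * (M + 1))) ^ j)

/-- pointwise reflection at the scale `x` -/
def ScStmt : Prop := ∀ (f : ℝ → ℝ) (a b : ℝ), Sup f a b → ∀ d A : ℝ, 0 < d → ∃ C : ℝ, 0 < C ∧
  ∀ (x y T : ℝ) (L M : ℕ) (t : ℝ), 1 ≤ y → y ≤ x → b * y ≤ L → T ≤ x →
    T * x ^ d ≤ y * (M + 1) → x ^ d ≤ |t| → |t| ≤ T →
    ‖SZ f y L t‖ ≤ C * (∫ ξ : ℝ, kp ξ * ‖ZZ M (t + ξ)‖) + C * x ^ (-A)

/-- On the set `U`, the function `F` is controlled in every weighted first moment by a Dirichlet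
polynomial of length `L` with coefficients at most `K * l ^ (-1/2)`, up to the error `η`. -/
def Av (U : Set ℝ) (F : ℝ → ℂ) (L : ℕ) (K η : ℝ) : Prop :=
  ∀ (ι : Type) (s : Finset ι) (w u : ι → ℝ), (∀ i ∈ s, 0 ≤ w i) → (∀ i ∈ s, u i ∈ U) →
    ∃ c : ℕ → ℂ, (∀ l, ‖c l‖ ≤ K * hf (l : ℝ)) ∧
      ∑ i ∈ s, w i * ‖F (u i)‖ ≤ ∑ i ∈ s, w i * ‖PP L c (u i)‖ + η * ∑ i ∈ s, w i

/-- the reflected avatar of a smooth zeta sum -/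
def AvStmt : Prop := ∀ (f : ℝ → ℝ) (a b : ℝ), Sup f a b → ∀ d A : ℝ, 0 < d → ∃ C : ℝ, 1 ≤ C ∧
  ∀ (x y T : ℝ) (L M : ℕ), 1 ≤ y → y ≤ x → b * y ≤ L → T ≤ x → T * x ^ d ≤ y * (M + 1) →
    Av {t | x ^ d ≤ |t| ∧ |t| ≤ T} (SZ f y L) M C (C * x ^ (-A))

/-- power saving for a smooth zeta sum -/
def SavStmt : Prop := ∀ (f : ℝ → ℝ) (a b : ℝ), Sup f a b → ∀ k : ℕ, ∃ C δ : ℝ, 0 < C ∧ 0 < δ ∧
  ∀ (y : ℝ) (L : ℕ) (t : ℝ), 1 ≤ y → b * y ≤ L → |t| ≤ y ^ k →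
    ‖SZ f y L t‖ ≤ C * √y * (1 / (1 + |t|) + y ^ (-δ))

lemma Sup.ev {f : ℝ → ℝ} {a b : ℝ} (h : Sup f a b) {x : ℝ} (hx : x < a) :
    f =ᶠ[nhds x] fun _ => 0 := by
  filter_upwards [Iio_mem_nhds hx] with z hz
  exact h.z z (Or.inl (le_of_lt hz))

lemma Sup.cs {f : ℝ → ℝ} {a b : ℝ} (h : Sup f a b) : HasCompactSupport f :=
  HasCompactSupport.intro (isCompact_Icc (a := a) (b := b)) fun x hx => h.z x (by
    rw [Set.mem_Icc, not_and_or, not_le, not_le] at hx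
    exact hx.imp le_of_lt le_of_lt)

lemma Sup.cl {f : ℝ → ℝ} {a b : ℝ} (h : Sup f a b) : Cl_Decay f :=
  ⟨h.sm, h.cs, notMem_tsupport_iff_eventuallyEq.2 (h.ev h.pos)⟩

lemma Sup.mem {f : ℝ → ℝ} {a b : ℝ} (h : Sup f a b) {x : ℝ} (hx : f x ≠ 0) : a < x ∧ x < b := by
  by_contra hc
  rw [not_and_or, not_lt, not_lt] at hc
  exact hx (h.z x hc)

/-- product with a function that is smooth on the positive axis -/
lemma Sup.mul {f g : ℝ → ℝ} {a b : ℝ} (h : Sup f a b)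
    (hg : ∀ x, 0 < x → ContDiffAt ℝ (⊤ : ℕ∞) g x) : Sup (fun x => f x * g x) a b := by
  refine ⟨h.pos, contDiff_iff_contDiffAt.2 fun x => ?_, fun x hx => by rw [h.z x hx, zero_mul]⟩
  by_cases hx : 0 < x
  · exact h.sm.contDiffAt.mul (hg x hx)
  · refine (contDiffAt_const (c := (0 : ℝ))).congr_of_eventuallyEq ?_
    filter_upwards [h.ev ((not_lt.1 hx).trans_lt h.pos)] with z hz
    rw [hz, zero_mul]

lemma Sup.mul_hf {f : ℝ → ℝ} {a b : ℝ} (h : Sup f a b) : Sup (fun x => f x * hf x) a b :=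
  h.mul fun _ hx => contDiffAt_const.div (Real.contDiffAt_sqrt hx.ne') (Real.sqrt_pos.2 hx).ne'

lemma Sup.mul_log {f : ℝ → ℝ} {a b : ℝ} (h : Sup f a b) :
    Sup (fun x => f x * Real.log x) a b :=
  h.mul fun _ hx => Real.contDiffAt_log.2 hx.ne'

lemma sup_om : Sup om 1 (5 / 3) := ⟨one_pos, contDiff_om, fun _ hx => om_eq_zero hx⟩

lemma sup_Wt : Sup Wt (3 / 4) (9 / 4) := ⟨by norm_num, contDiff_Wt, fun _ hx => Wt_eq_zero hx⟩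

end Pool.Agent.MP_c853c5_nt.R
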