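import Pool.Agent.MP_c853c5_nt.R.Defs

/-!
Poisson summation for a general weight, and decay of all orders of the zero frequency.
-/

set_option autoImplicit false

open Finset
open scoped FourierTransform

namespace Pool.Agent.MP_c853c5_nt.R

open Pool.Agent.MP_2a1f0e_nt Pool.Agent.MP_2a1f0e_nt.GM Pool.Agent.MP_2a1f0e_nt.DH

/-- the oscillatory integral -/
noncomputable def HG (f : ℝ → ℝ) (u ξ : ℝ) : ℂ := ∫ x : ℝ, G_Decay f u ξ x

lemma zero_all (j : ℕ) : ∀ φ : ℝ → ℝ, Cl_Decay φ → ∃ C : ℝ, 0 < C ∧ ∀ u : ℝ,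
    ‖HG φ u 0‖ ≤ C / (1 + |u|) ^ j := by
  induction j with
  | zero =>
    intro φ _
    obtain ⟨C, hC, h1⟩ := bound_Decay φ
    exact ⟨C, hC, fun u => by simpa [HG] using h1 u 0⟩
  | succ j ih =>
    intro φ h
    obtain ⟨C, hC, h1⟩ := ih _ h.der.mul
    refine ⟨2 * C, by positivity, fun u => ?_⟩
    have e := congrArg norm (h.step u)
    rw [norm_mul, norm_neg] at e
    have h2 : ‖(1 : ℂ) + Complex.I * u‖ ^ 2 = 1 + u ^ 2 := by
      rw [Complex.sq_norm, Complex.normSq_apply]
      simp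
      ring
    have h3 : 1 + |u| ≤ 2 * ‖(1 : ℂ) + Complex.I * u‖ := by
      refine le_of_pow_le_pow_left₀ (n := 2) (by norm_num) (by positivity) ?_
      rw [mul_pow, h2]
      nlinarith [sq_abs u, sq_nonneg (|u| - 1), abs_nonneg u]
    have h4 := h1 u
    unfold HG at h4 ⊢
    rw [← e, le_div_iff₀ (by positivity)] at h4
    rw [le_div_iff₀ (by positivity), pow_succ]
    have h5 : 0 ≤ ‖∫ x, G_Decay φ u 0 x‖ * (1 + |u|) ^ j := by positivity
    nlinarith [mul_le_mul_of_nonneg_left h3 h5]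

lemma cont_pw {f : ℝ → ℝ} {a b : ℝ} (h : Sup f a b) (u : ℝ) :
    Continuous fun y : ℝ => (f y : ℂ) * pw y u := by
  refine continuous_iff_continuousAt.2 fun y => ?_
  by_cases hy : 0 < y
  · exact (Complex.continuous_ofReal.comp h.sm.continuous).continuousAt.mul
      ((continuousOn_pw u).continuousAt (Ioi_mem_nhds hy))
  · have h1 : (fun y : ℝ => (f y : ℂ) * pw y u) =ᶠ[nhds y] fun _ => 0 := by
      filter_upwards [h.ev ((not_lt.1 hy).trans_lt h.pos)] with z hz
      rw [hz, Complex.ofReal_zero, zero_mul]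
    exact continuousAt_const.congr h1.symm

theorem pois {g : ℝ → ℝ} {a b : ℝ} (h : Sup g a b) {y : ℝ} (hy : 1 ≤ y) {L : ℕ}
    (hL : b * y ≤ L) (u : ℝ) :
    HasSum (fun m : ℤ => (y : ℂ) * pw y u * HG g u ((m : ℝ) * y))
      (PP L (fun l => (g ((l : ℝ) / y) : ℂ)) u) := by
  have hy0 : (0 : ℝ) < y := by linarith
  let f : ℝ → ℂ := fun x => pw y u * ((g (x / y) : ℂ) * pw (x / y) u)
  have hc : Continuous f := continuous_const.mul ((cont_pw h u).comp (continuous_id.div_const _))
  have h0 : ∀ x : ℝ, x ≤ 0 ∨ (L : ℝ) < x → f x = 0 := fun x hx => by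
    have h1 : g (x / y) = 0 := h.z _ (hx.imp
      (fun h2 => (div_nonpos_of_nonpos_of_nonneg h2 hy0.le).trans h.pos.le)
      fun h2 => by rw [le_div_iff₀ hy0]; linarith)
    simp only [f, h1, Complex.ofReal_zero, zero_mul, mul_zero]
  have hf : f =O[Filter.cocompact ℝ] fun x : ℝ => |x| ^ (-(2 : ℝ)) := by
    have h1 : f =ᶠ[Filter.cocompact ℝ] fun _ => 0 := by
      filter_upwards [(isCompact_Icc (a := (0 : ℝ)) (b := L)).compl_mem_cocompact] with x hx
      refine h0 x ?_
      by_contra h1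
      rw [not_or, not_le, not_lt] at h1
      exact hx ⟨h1.1.le, h1.2⟩
    exact (Asymptotics.isBigO_zero _ _).congr' h1.symm Filter.EventuallyEq.rfl
  have hF : ∀ m : ℤ, 𝓕 f m = (y : ℂ) * pw y u * HG g u ((m : ℝ) * y) := fun m => by
    have h1 := MeasureTheory.Measure.integral_comp_div
      (fun z : ℝ => (g z : ℂ) * pw z u * ex (-((m : ℝ) * y * z))) y
    rw [abs_of_pos hy0, Complex.real_smul] at h1
    rw [Real.fourier_real_eq_integral_exp_smul, HG, mul_comm (y : ℂ), mul_assoc]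
    unfold G_Decay
    rw [← h1, ← MeasureTheory.integral_const_mul]
    refine congrArg _ (funext fun x => ?_)
    have e : ex (-((m : ℝ) * y * (x / y))) =
        Complex.exp (((-2 * Real.pi * x * m : ℝ) : ℂ) * Complex.I) := by
      rw [ex, mul_comm Complex.I]
      congr 3
      field_simp
    rw [e, smul_eq_mul]
    simp only [f]
    ring
  have hs : Summable fun m : ℤ => (y : ℂ) * pw y u * HG g u ((m : ℝ) * y) := by
    obtain ⟨C, hC, hb⟩ := decay_Decay 2 g h.cl
    refine Summable.mul_left _ (Summable.of_norm_bounded_eventually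
      ((Real.summable_one_div_int_pow.2 one_lt_two).mul_left (C * (1 + |u|) ^ 2)) ?_)
    filter_upwards [(Set.finite_singleton (0 : ℤ)).compl_mem_cofinite] with m hm
    have hm' : (m : ℝ) ≠ 0 := Int.cast_ne_zero.2 hm
    refine (hb u _ (mul_ne_zero hm' hy0.ne')).trans ?_
    rw [div_pow, sq_abs, mul_assoc, mul_one_div, mul_pow]
    have h1 : (0 : ℝ) < (m : ℝ) ^ 2 := by positivity
    gcongr
    exact le_mul_of_one_le_right h1.le (one_le_pow₀ hy)
  have h1 := Real.tsum_eq_tsum_fourier_of_rpow_decay_of_summable hc one_lt_two hf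
    (by simpa only [hF] using hs) 0
  simp only [zero_add, hF, QuotientAddGroup.mk_zero, fourier_eval_zero, mul_one] at h1
  have h2 : ∑' n : ℤ, f n = PP L (fun l => (g ((l : ℝ) / y) : ℂ)) u := by
    rw [tsum_eq_sum (s := (Icc 1 L).map Nat.castEmbedding), sum_map, PP]
    · refine sum_congr rfl fun n hn => ?_
      have hn' : (n : ℝ) ≠ 0 := Nat.cast_ne_zero.2 (by have := (mem_Icc.1 hn).1; omega)
      have e : pw (n : ℝ) u = pw y u * pw ((n : ℝ) / y) u := by
        rw [← pw_mul hy0.ne' (div_ne_zero hn' hy0.ne'), mul_div_cancel₀ _ hy0.ne']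
      rw [e]
      simp only [f, Nat.castEmbedding_apply, Int.cast_natCast]
      ring
    · intro n hn
      refine h0 _ ?_
      by_contra h3
      rw [not_or, not_le, not_lt] at h3
      have h4 : 0 < n := by exact_mod_cast h3.1
      have h5 : n ≤ L := by exact_mod_cast h3.2
      refine hn (mem_map.2 ⟨n.toNat, mem_Icc.2 ⟨by omega, by omega⟩, ?_⟩)
      exact Int.toNat_of_nonneg h4.le
  rw [← h2, h1]
  exact hs.hasSum

end Pool.Agent.MP_c853c5_nt.R
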