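import Pool.Agent.MP_c853c5_nt.R.Pois
import Pool.Agent.MP_2a1f0e_nt.DH.Mel
import Pool.Agent.MP_2a1f0e_nt.DH.Gam
import Pool.Agent.MP_2a1f0e_nt.DH.Fub
import Pool.Agent.MP_2a1f0e_nt.DH.Refl
import Pool.Agent.MP_2a1f0e_nt.GM.KOne

/-!
The reflection inequality for a general weight.
-/

set_option autoImplicit false

open Finset

namespace Pool.Agent.MP_c853c5_nt.R

open Pool.Agent.MP_2a1f0e_nt Pool.Agent.MP_2a1f0e_nt.GM Pool.Agent.MP_2a1f0e_nt.DH MeasureTheory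

/-- the oscillatory integral with a complex frequency -/
noncomputable def Hz (g : ℝ → ℝ) (u : ℝ) (z : ℂ) : ℂ :=
  ∫ x : ℝ, (g x : ℂ) * pw x u * Complex.exp (-(z * x))

lemma fub {g : ℝ → ℝ} {a b : ℝ} (hg : Sup g a b) : ∃ C : ℝ, 0 < C ∧ ∃ φ : ℝ → ℂ,
    (∀ ξ, ‖φ ξ‖ ≤ C * kp ξ) ∧
    ∀ (u : ℝ) (r : ℂ), 0 < r.re → Integrable (fun ξ : ℝ => φ ξ * GI r (u + ξ)) ∧
      ∀ k : ℝ, 0 < k → Hz g u (k * r) =
        ∫ ξ : ℝ, φ ξ * GI r (u + ξ) * ((hf k : ℂ) * pw k (-(u + ξ))) := by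
  obtain ⟨C, hC, h⟩ := mel_stmt g a b hg.pos hg.sm hg.z
  obtain ⟨φ, hc, hb, hφ⟩ := h ((1 / 2 : ℝ) : ℂ) (by rw [Complex.norm_real]; norm_num)
  refine ⟨C, hC, φ, hb, fun u r hr => ⟨?_, fun k hk => ?_⟩⟩
  · simpa only [Function.uncurry, integral_const_mul, GI] using
      (int_Fub hc hb u hr).integral_prod_right
  have hr' : 0 < ((k : ℂ) * r).re := by
    rw [Complex.re_ofReal_mul]
    exact mul_pos hk hr
  have h1 := integral_integral_swap (int_Fub hc hb u hr')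
  simp only [mul_assoc (φ _), ← scale_Fub r _ hk]
  rw [Hz, ← setIntegral_eq_integral_of_forall_compl_eq_zero (s := Set.Ioi 0) fun x hx => by
    rw [hg.z x (Or.inl ((not_lt.1 hx).trans hg.pos.le))]
    simp]
  refine Eq.trans (setIntegral_congr_fun measurableSet_Ioi fun x hx => ?_)
    (h1.trans (by simp only [integral_const_mul, GI]))
  have h2 := hφ x hx
  have h3 : (hf x : ℂ) * (x : ℂ) ^ ((1 / 2 : ℝ) : ℂ) = 1 := by
    rw [← Complex.ofReal_cpow (le_of_lt hx), ← Real.sqrt_eq_rpow, ← Complex.ofReal_mul, hf,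
      one_div_mul_cancel (Real.sqrt_pos.2 hx).ne', Complex.ofReal_one]
  have h4 : ∀ ξ, φ ξ * ((hf x : ℂ) * pw x (u + ξ) * Complex.exp (-(k * r * x))) =
      (hf x : ℂ) * pw x u * Complex.exp (-(k * r * x)) * (φ ξ * pw x ξ) := fun ξ => by
    rw [pw_add]
    ring
  simp only [h4, integral_const_mul, ← h2]
  linear_combination -(g x : ℂ) * pw x u * Complex.exp (-(k * r * x)) * h3

lemma int_Hz {g : ℝ → ℝ} {a b : ℝ} (hg : Sup g a b) (u : ℝ) (z : ℂ) :
    Integrable fun x : ℝ => (g x : ℂ) * pw x u * Complex.exp (-(z * x)) := by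
  have h1 : Integrable fun x : ℝ => (g x : ℂ) * Complex.exp (-(z * x)) := by
    refine Continuous.integrable_of_hasCompactSupport
      ((Complex.continuous_ofReal.comp hg.sm.continuous).mul (by fun_prop)) ?_
    exact (hg.cs.comp_left (g := Complex.ofReal) Complex.ofReal_zero).mul_right
  refine (h1.mul_bdd (measurable_pw u).aestronglyMeasurable
    (Filter.Eventually.of_forall fun x => (norm_pw x u).le)).congr
    (Filter.Eventually.of_forall fun x => ?_)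
  dsimp only
  ring

lemma HG_eq (g : ℝ → ℝ) (u ξ : ℝ) :
    HG g u ξ = Hz g u (((2 * Real.pi * ξ : ℝ) : ℂ) * Complex.I) := by
  unfold HG Hz G_Decay ex
  congr 1
  funext x
  congr 2
  push_cast
  ring

lemma lim_Hz {g : ℝ → ℝ} {a b : ℝ} (hg : Sup g a b) (u e y : ℝ) (he : 0 ≤ e) :
    ‖Hz g u ((y : ℂ) * Complex.I) - Hz g u (e + (y : ℂ) * Complex.I)‖ ≤
      e * (|b| * ∫ x, |g x|) := by
  rw [Hz, Hz, ← integral_sub (int_Hz hg _ _) (int_Hz hg _ _), ← mul_assoc, ← integral_const_mul]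
  refine norm_integral_le_of_norm_le (hg.cl.int.abs.const_mul _)
    (Filter.Eventually.of_forall fun x => ?_)
  by_cases h : g x = 0
  · simp [h]
  obtain ⟨h1, h2⟩ := hg.mem h
  have h0 := hg.pos
  have e1 : Complex.exp (-((y : ℂ) * Complex.I * x)) -
      Complex.exp (-((e + (y : ℂ) * Complex.I) * x)) =
      Complex.exp (((-(y * x) : ℝ) : ℂ) * Complex.I) * ((1 - Real.exp (-(e * x)) : ℝ) : ℂ) := by
    push_cast
    rw [mul_sub, mul_one, ← Complex.exp_add]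
    congr 2 <;> ring
  have h3 : Real.exp (-(e * x)) ≤ 1 := Real.exp_le_one_iff.2 (by nlinarith)
  have h4 := Real.add_one_le_exp (-(e * x))
  rw [← mul_sub, e1, norm_mul, norm_mul, norm_mul, norm_pw, Complex.norm_exp_ofReal_mul_I,
    Complex.norm_real, Complex.norm_real, Real.norm_eq_abs,
    Real.norm_of_nonneg (sub_nonneg.2 h3), mul_one, one_mul, mul_comm]
  refine mul_le_mul_of_nonneg_right ?_ (abs_nonneg _)
  nlinarith [mul_le_mul_of_nonneg_left (h2.le.trans (le_abs_self b)) he]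

lemma side {g : ℝ → ℝ} {a b : ℝ} (hg : Sup g a b) : ∃ C : ℝ, 0 < C ∧ ∀ (y : ℝ) (M : ℕ), 0 < y →
    ∀ u σ : ℝ, |σ| = 1 → ‖∑ m ∈ Icc 1 M, HG g u (σ * m * y)‖ ≤
      C * hf y * ∫ ξ : ℝ, kp ξ * ‖ZZ M (u + ξ)‖ := by
  obtain ⟨C, hC, φ, hφ, h⟩ := fub hg
  refine ⟨C, hC, fun y M hy u σ hσ => ?_⟩
  have key : ∀ r : ℂ, 0 < r.re → 2 * Real.pi ≤ ‖r‖ →
      ‖∑ m ∈ Icc 1 M, Hz g u ((((m : ℝ) * y : ℝ) : ℂ) * r)‖ ≤
        C * hf y * ∫ ξ : ℝ, kp ξ * ‖ZZ M (u + ξ)‖ := by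
    intro r h1 h2
    obtain ⟨hi, he⟩ := h u r h1
    have hm : ∀ m ∈ Icc 1 M, (0 : ℝ) < m := fun m hm => by
      exact_mod_cast (mem_Icc.1 hm).1
    have hk : ∀ k : ℝ, Integrable fun ξ : ℝ =>
        φ ξ * GI r (u + ξ) * ((hf k : ℂ) * pw k (-(u + ξ))) := fun k =>
      hi.mul_bdd (c := hf k) (continuous_const.mul ((continuous_pw _).comp
          (continuous_const.add continuous_id).neg)).aestronglyMeasurable
        (Filter.Eventually.of_forall fun ξ => by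
          rw [norm_mul, norm_pw, mul_one, Complex.norm_real, Real.norm_of_nonneg (hf_nonneg _)])
    rw [sum_congr rfl fun (m : ℕ) hm' => he _ (mul_pos (hm m hm') hy),
      ← integral_finsetSum _ fun (m : ℕ) _ => hk ((m : ℝ) * y), ← integral_const_mul]
    refine norm_integral_le_of_norm_le ((int_kpZ_Refl M u).const_mul _)
      (Filter.Eventually.of_forall fun ξ => ?_)
    have e : ∑ m ∈ Icc 1 M, ((hf ((m : ℝ) * y) : ℝ) : ℂ) * pw ((m : ℝ) * y) (-(u + ξ)) =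
        (hf y : ℂ) * pw y (-(u + ξ)) * ZZ M (-(u + ξ)) := by
      rw [ZZ, PP, mul_sum]
      refine sum_congr rfl fun m hm' => ?_
      rw [hf_mul (hm m hm').le, pw_mul (hm m hm').ne' hy.ne']
      push_cast
      ring
    rw [← mul_sum, e, norm_mul, norm_mul, norm_mul, norm_mul, norm_pw, norm_ZZ_neg,
      Complex.norm_real, Real.norm_of_nonneg (hf_nonneg _), mul_one]
    have h3 : ‖φ ξ‖ * ‖GI r (u + ξ)‖ ≤ C * kp ξ :=
      (mul_le_of_le_one_right (norm_nonneg _) (gam_stmt r _ h1 h2)).trans (hφ ξ)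
    exact (mul_le_mul_of_nonneg_right h3 (mul_nonneg (hf_nonneg _) (norm_nonneg _))).trans_eq
      (by ring)
  have hW : 0 ≤ |b| * ∫ x, |g x| :=
    mul_nonneg (abs_nonneg _) (integral_nonneg fun x => abs_nonneg _)
  obtain ⟨D, hD, hD0⟩ : ∃ D : ℝ, D = ∑ m ∈ Icc 1 M, (m : ℝ) * y * (|b| * ∫ x, |g x|) ∧ 0 ≤ D :=
    ⟨_, rfl, sum_nonneg fun m _ => by positivity⟩
  refine le_of_forall_pos_le_add fun ε hε => ?_
  have he : 0 < ε / (D + 1) := by positivity
  have h1 := key (((ε / (D + 1) : ℝ) : ℂ) + ((2 * Real.pi * σ : ℝ) : ℂ) * Complex.I)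
    (by
      rw [Complex.add_re, Complex.ofReal_re, Complex.re_ofReal_mul, Complex.I_re, mul_zero, add_zero]
      exact he)
    (by
      refine le_trans (le_of_eq ?_) (Complex.abs_im_le_norm _)
      rw [Complex.add_im, Complex.ofReal_im, Complex.im_ofReal_mul, Complex.I_im, mul_one,
        zero_add, abs_mul, hσ, mul_one, abs_of_pos (by positivity)])
  refine (norm_le_norm_add_norm_sub' _ _).trans (add_le_add h1 ?_)
  rw [← sum_sub_distrib]
  refine (norm_sum_le _ _).trans ((sum_le_sum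
    (g := fun m : ℕ => ε / (D + 1) * ((m : ℝ) * y * (|b| * ∫ x, |g x|))) fun m _ => ?_).trans ?_)
  · have h2 := lim_Hz hg u ((m : ℝ) * y * (ε / (D + 1))) (2 * Real.pi * (σ * m * y))
      (by positivity)
    rw [HG_eq]
    refine (le_of_eq ?_).trans (h2.trans_eq (by ring))
    congr 3
    push_cast
    ring
  · rw [← mul_sum, ← hD, div_mul_eq_mul_div, div_le_iff₀ (by positivity)]
    nlinarith

lemma SZ_eq (f : ℝ → ℝ) {y : ℝ} (hy : 0 < y) (L : ℕ) (t : ℝ) :
    SZ f y L t = (hf y : ℂ) * PP L (fun l => ((f ((l : ℝ) / y) * hf ((l : ℝ) / y) : ℝ) : ℂ)) t := by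
  rw [SZ, ← PP_smul]
  congr 1
  funext l
  have e : hf (l : ℝ) = hf y * hf ((l : ℝ) / y) := by
    rw [← hf_mul hy.le, mul_div_cancel₀ _ hy.ne']
  rw [e]
  push_cast
  ring

theorem pt_stmt : PtStmt := by
  intro f a b hf0 j
  have hg := hf0.mul_hf
  obtain ⟨C1, hC1, h1⟩ := side hg
  obtain ⟨C2, hC2, h2⟩ := zero_all j _ hg.cl
  obtain ⟨C3, hC3, h3⟩ := decay_Decay (j + 2) _ hg.cl
  refine ⟨2 * C1 + C2 + 12 * C3, by positivity, fun y L M t hy hL => ?_⟩
  have hy0 : 0 < y := by linarith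
  set g : ℝ → ℝ := fun x => f x * hf x with hgd
  have hn : ∀ z : ℂ, ‖(y : ℂ) * pw y t * z‖ = y * ‖z‖ := fun z => by
    rw [norm_mul, norm_mul, norm_pw, mul_one, Complex.norm_real, Real.norm_of_nonneg hy0.le]
  set I := ∫ ξ : ℝ, kp ξ * ‖ZZ M (t + ξ)‖ with hI
  have hI0 : 0 ≤ I := integral_nonneg fun ξ => mul_nonneg (kp_pos ξ).le (norm_nonneg _)
  set r := 1 + |t| with hr
  have hr0 : 0 < r := by positivity
  set q := (r / y) ^ 2 * (r / (y * (M + 1))) ^ j with hq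
  have hq0 : 0 ≤ q := by positivity
  have key := tail_KOne (pois hg hy hL t) (Ms M) (A := y * (C2 / r ^ j))
    (B := y * (C3 * (2 * q))) (by positivity) (by positivity)
    (by
      rw [hn, Int.cast_zero, zero_mul]
      exact mul_le_mul_of_nonneg_left (h2 t) hy0.le)
    (fun m hm0 hm => by
      have hm1 : (M : ℝ) + 1 ≤ |(m : ℝ)| := by
        have h4 : (M : ℤ) + 1 ≤ |m| := by
          rw [mem_Ms] at hm
          rw [le_abs]
          omega
        exact_mod_cast h4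
      have hm2 : (1 : ℝ) ≤ |(m : ℝ)| := by exact_mod_cast Int.one_le_abs hm0
      rw [hn, mul_assoc, mul_assoc]
      refine mul_le_mul_of_nonneg_left ((h3 _ _ (mul_ne_zero (Int.cast_ne_zero.2 hm0)
        hy0.ne')).trans (mul_le_mul_of_nonneg_left ?_ hC3.le)) hy0.le
      have h5 : r / |(m : ℝ) * y| ≤ r / (y * (M + 1)) := by
        rw [abs_mul, abs_of_pos hy0, mul_comm _ y]
        gcongr
      have h6 : (r / |(m : ℝ) * y|) ^ 2 ≤ 2 * (r / y) ^ 2 * kp (m : ℝ) := by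
        have h7 : (1 : ℝ) ≤ (m : ℝ) ^ 2 := by
          rw [← sq_abs]
          nlinarith
        have h8 : 1 / (m : ℝ) ^ 2 ≤ 2 * kp (m : ℝ) := by
          rw [kp, mul_one_div, div_le_div_iff₀ (by positivity) (by positivity)]
          linarith
        calc (r / |(m : ℝ) * y|) ^ 2 = (r / y) ^ 2 * (1 / (m : ℝ) ^ 2) := by
              rw [div_pow, sq_abs, div_pow]
              field_simp
          _ ≤ (r / y) ^ 2 * (2 * kp (m : ℝ)) := by gcongr
          _ = _ := by ring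
      have h9 : 0 ≤ r / |(m : ℝ) * y| := by positivity
      rw [pow_add]
      exact (mul_le_mul (pow_le_pow_left₀ h9 h5 j) h6 (by positivity) (by positivity)).trans_eq
        (by rw [hq]; ring))
  have h4 := h1 y M hy0 t 1 abs_one
  have h5 := h1 y M hy0 t (-1) (by rw [abs_neg, abs_one])
  simp only [one_mul, neg_mul] at h4 h5
  have h6 : ‖∑ m ∈ Ms M, (y : ℂ) * pw y t * HG g t ((m : ℝ) * y)‖ ≤
      y * (2 * (C1 * hf y * I)) := by
    rw [← mul_sum, hn, sum_Ms_Refl]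
    simp only [Int.cast_neg, Int.cast_natCast, neg_mul]
    exact mul_le_mul_of_nonneg_left ((norm_add_le _ _).trans ((add_le_add h4 h5).trans_eq
      (by ring))) hy0.le
  have h7 := (norm_le_norm_add_norm_sub' _ _).trans (add_le_add h6 key)
  have h8 : hf y * y = √y := by
    rw [hf, one_div_mul_eq_div, Real.div_sqrt]
  have h9 : hf y * y * hf y = 1 := by
    rw [mul_right_comm, ← sq, hf_sq hy0.le, one_div_mul_cancel hy0.ne']
  rw [SZ_eq f hy0, norm_mul, Complex.norm_real, Real.norm_of_nonneg (hf_nonneg _)]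
  refine (mul_le_mul_of_nonneg_left h7 (hf_nonneg y)).trans ?_
  have e : hf y * (y * (2 * (C1 * hf y * I)) + (y * (C2 / r ^ j) + 6 * (y * (C3 * (2 * q))))) =
      2 * C1 * I * (hf y * y * hf y) + C2 * (hf y * y / r ^ j) + 12 * C3 * (hf y * y * q) := by
    ring
  rw [e, h9, h8, mul_assoc (√y), ← hq]
  have p1 : 0 ≤ √y / r ^ j := by positivity
  have p2 : 0 ≤ √y * q := by positivity
  generalize √y / r ^ j = P at p1 ⊢
  generalize √y * q = Q at p2 ⊢
  nlinarith [mul_nonneg hC1.le p1, mul_nonneg hC1.le p2, mul_nonneg hC2.le hI0,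
    mul_nonneg hC2.le p2, mul_nonneg hC3.le hI0, mul_nonneg hC3.le p1]

end Pool.Agent.MP_c853c5_nt.R
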