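import Pool.Agent.MP_c853c5_nt.R.Av

/-!
Reflection with a weighted dual sum.
-/

set_option autoImplicit false

open Finset

namespace Pool.Agent.MP_c853c5_nt.R

open Pool.Agent.MP_2a1f0e_nt Pool.Agent.MP_2a1f0e_nt.GM Pool.Agent.MP_2a1f0e_nt.DH MeasureTheory

/-- the weighted zeta sum -/
noncomputable def ZW (M : ℕ) (c : ℕ → ℝ) (t : ℝ) : ℂ :=
  PP M (fun l => ((c l * hf (l : ℝ) : ℝ) : ℂ)) t

lemma norm_PP_neg (M : ℕ) (c : ℕ → ℝ) (u : ℝ) :
    ‖PP M (fun l => (c l : ℂ)) (-u)‖ = ‖PP M (fun l => (c l : ℂ)) u‖ := by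
  rw [← Complex.norm_conj (PP M _ u)]
  unfold PP
  rw [map_sum]
  congr 1
  refine sum_congr rfl fun l _ => ?_
  rw [map_mul, conj_pw, Complex.conj_ofReal]

lemma int_kp_bdd {G : ℝ → ℝ} {B : ℝ} (hG : Continuous G) (hB : ∀ t, |G t| ≤ B) (u : ℝ) :
    Integrable fun ξ : ℝ => kp ξ * G (u + ξ) :=
  integrable_kp.mul_bdd (hG.comp (continuous_const.add continuous_id)).aestronglyMeasurable
    (Filter.Eventually.of_forall fun _ => hB _)

lemma norm_ZW_le (M : ℕ) {c : ℕ → ℝ} (hc : ∀ m, 0 ≤ c m ∧ c m ≤ 1) (t : ℝ) : ‖ZW M c t‖ ≤ M := by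
  have := norm_PP_le (L := M) (c := fun l => ((c l * hf (l : ℝ) : ℝ) : ℂ)) (B := 1) (fun l hl => by
    rw [Complex.norm_real, Real.norm_of_nonneg (mul_nonneg (hc l).1 (hf_nonneg _))]
    exact mul_le_one₀ (hc l).2 (hf_nonneg _) (hf_le_one (by exact_mod_cast (mem_Icc.1 hl).1))) t
  simpa [ZW] using this

lemma int_ZW (M : ℕ) {c : ℕ → ℝ} (hc : ∀ m, 0 ≤ c m ∧ c m ≤ 1) (u : ℝ) :
    Integrable fun ξ : ℝ => kp ξ * ‖ZW M c (u + ξ)‖ :=
  int_kp_bdd (G := fun t => ‖ZW M c t‖) (continuous_PP _ _).norm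
    (fun t => (abs_norm _).trans_le (norm_ZW_le M hc t)) u

lemma sideW {g : ℝ → ℝ} {a b : ℝ} (hg : Sup g a b) : ∃ C : ℝ, 0 < C ∧
    ∀ (y : ℝ) (M : ℕ) (c : ℕ → ℝ), 0 < y → (∀ m, 0 ≤ c m ∧ c m ≤ 1) →
    ∀ u σ : ℝ, |σ| = 1 → ‖∑ m ∈ Icc 1 M, (c m : ℂ) * HG g u (σ * m * y)‖ ≤
      C * hf y * ∫ ξ : ℝ, kp ξ * ‖ZW M c (u + ξ)‖ := by
  obtain ⟨C, hC, φ, hφ, h⟩ := fub hg
  refine ⟨C, hC, fun y M c hy hc u σ hσ => ?_⟩
  have key : ∀ r : ℂ, 0 < r.re → 2 * Real.pi ≤ ‖r‖ →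
      ‖∑ m ∈ Icc 1 M, (c m : ℂ) * Hz g u ((((m : ℝ) * y : ℝ) : ℂ) * r)‖ ≤
        C * hf y * ∫ ξ : ℝ, kp ξ * ‖ZW M c (u + ξ)‖ := by
    intro r h1 h2
    obtain ⟨hi, he⟩ := h u r h1
    have hm : ∀ m ∈ Icc 1 M, (0 : ℝ) < m := fun m hm => by
      exact_mod_cast (mem_Icc.1 hm).1
    have hk : ∀ k : ℝ, Integrable fun ξ : ℝ =>
        φ ξ * GI r (u + ξ) * ((hf k : ℂ) * pw k (-(u + ξ))) := fun k =>
      hi.mul_bdd (c := hf k) (continuous_const.mul ((continuous_pw _).comp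
          (continuous_const.add continuous_id).neg)).aestronglyMeasurable
        (Filter.Eventually.of_forall fun ξ => by
          rw [norm_mul, norm_pw, mul_one, Complex.norm_real, Real.norm_of_nonneg (hf_nonneg _)])
    rw [sum_congr rfl fun (m : ℕ) hm' => by
        rw [he _ (mul_pos (hm m hm') hy), ← integral_const_mul],
      ← integral_finsetSum _ fun (m : ℕ) _ => (hk ((m : ℝ) * y)).const_mul _,
      ← integral_const_mul]
    refine norm_integral_le_of_norm_le ((int_ZW M hc u).const_mul _)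
      (Filter.Eventually.of_forall fun ξ => ?_)
    have e : ∑ m ∈ Icc 1 M, (c m : ℂ) * (φ ξ * GI r (u + ξ) *
        (((hf ((m : ℝ) * y) : ℝ) : ℂ) * pw ((m : ℝ) * y) (-(u + ξ)))) =
        φ ξ * GI r (u + ξ) * ((hf y : ℂ) * pw y (-(u + ξ)) * ZW M c (-(u + ξ))) := by
      rw [ZW, PP, mul_sum, mul_sum]
      refine sum_congr rfl fun m hm' => ?_
      rw [hf_mul (hm m hm').le, pw_mul (hm m hm').ne' hy.ne']
      push_cast
      ring
    rw [e, norm_mul, norm_mul, norm_mul, norm_mul, norm_pw, ZW, norm_PP_neg,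
      Complex.norm_real, Real.norm_of_nonneg (hf_nonneg _), mul_one]
    have h3 : ‖φ ξ‖ * ‖GI r (u + ξ)‖ ≤ C * kp ξ :=
      (mul_le_of_le_one_right (norm_nonneg _) (gam_stmt r _ h1 h2)).trans (hφ ξ)
    exact (mul_le_mul_of_nonneg_right h3 (mul_nonneg (hf_nonneg _) (norm_nonneg _))).trans_eq
      (by rw [ZW]; ring)
  have hW : 0 ≤ |b| * ∫ x, |g x| :=
    mul_nonneg (abs_nonneg _) (integral_nonneg fun x => abs_nonneg _)
  obtain ⟨D, hD, hD0⟩ : ∃ D : ℝ, D = ∑ m ∈ Icc 1 M, (m : ℝ) * y * (|b| * ∫ x, |g x|) ∧ 0 ≤ D :=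
    ⟨_, rfl, sum_nonneg fun m _ => by positivity⟩
  refine le_of_forall_pos_le_add fun ε hε => ?_
  have he : 0 < ε / (D + 1) := by positivity
  have h1 := key (((ε / (D + 1) : ℝ) : ℂ) + ((2 * Real.pi * σ : ℝ) : ℂ) * Complex.I)
    (by
      rw [Complex.add_re, Complex.ofReal_re, Complex.re_ofReal_mul, Complex.I_re, mul_zero, add_zero]
      exact he)
    (by
      refine le_trans (le_of_eq ?_) (Complex.abs_im_le_norm _)
      rw [Complex.add_im, Complex.ofReal_im, Complex.im_ofReal_mul, Complex.I_im, mul_one,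
        zero_add, abs_mul, hσ, mul_one, abs_of_pos (by positivity)])
  refine (norm_le_norm_add_norm_sub' _ _).trans (add_le_add h1 ?_)
  rw [← sum_sub_distrib]
  refine (norm_sum_le _ _).trans ((sum_le_sum
    (g := fun m : ℕ => ε / (D + 1) * ((m : ℝ) * y * (|b| * ∫ x, |g x|))) fun m _ => ?_).trans ?_)
  · have h2 := lim_Hz hg u ((m : ℝ) * y * (ε / (D + 1))) (2 * Real.pi * (σ * m * y))
      (by positivity)
    rw [← mul_sub, norm_mul, Complex.norm_real, Real.norm_of_nonneg (hc m).1, HG_eq]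
    refine (mul_le_of_le_one_left (norm_nonneg _) (hc m).2).trans
      ((le_of_eq ?_).trans (h2.trans_eq (by ring)))
    congr 3
    push_cast
    ring
  · rw [← mul_sum, ← hD, div_mul_eq_mul_div, div_le_iff₀ (by positivity)]
    nlinarith

/-- pointwise reflection with a weighted dual sum -/
theorem pt_w {f : ℝ → ℝ} {a b : ℝ} (hf0 : Sup f a b) (j : ℕ) : ∃ C : ℝ, 0 < C ∧
    ∀ (y : ℝ) (L M M' : ℕ) (c : ℕ → ℝ) (t : ℝ), 1 ≤ y → b * y ≤ L → M ≤ M' →
      (∀ m, 0 ≤ c m ∧ c m ≤ 1) → (∀ m, m ≤ M → c m = 1) →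
      ‖SZ f y L t‖ ≤ C * ((∫ ξ : ℝ, kp ξ * ‖ZW M' c (t + ξ)‖) + √y / (1 + |t|) ^ j +
        √y * ((1 + |t|) / y) ^ 2 * ((1 + |t|) / (y * (M + 1))) ^ j) := by
  have hg := hf0.mul_hf
  obtain ⟨C1, hC1, h1⟩ := sideW hg
  obtain ⟨C2, hC2, h2⟩ := zero_all j _ hg.cl
  obtain ⟨C3, hC3, h3⟩ := decay_Decay (j + 2) _ hg.cl
  refine ⟨2 * C1 + C2 + 12 * C3, by positivity, fun y L M M' c t hy hL hM hc hc1 => ?_⟩
  have hy0 : 0 < y := by linarith
  set g : ℝ → ℝ := fun x => f x * hf x with hgd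
  have hn : ∀ z : ℂ, ‖(y : ℂ) * pw y t * z‖ = y * ‖z‖ := fun z => by
    rw [norm_mul, norm_mul, norm_pw, mul_one, Complex.norm_real, Real.norm_of_nonneg hy0.le]
  set I := ∫ ξ : ℝ, kp ξ * ‖ZW M' c (t + ξ)‖ with hI
  have hI0 : 0 ≤ I := integral_nonneg fun ξ => mul_nonneg (kp_pos ξ).le (norm_nonneg _)
  set r := 1 + |t| with hr
  have hr0 : 0 < r := by positivity
  set q := (r / y) ^ 2 * (r / (y * (M + 1))) ^ j with hq
  have hq0 : 0 ≤ q := by positivity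
  set F : ℤ → ℂ := fun m => (y : ℂ) * pw y t * HG g t ((m : ℝ) * y) with hF
  have hs : HasSum (fun m => if m ∈ Ms M' then (c m.natAbs : ℂ) * F m else 0)
      (∑ m ∈ Ms M', (c m.natAbs : ℂ) * F m) := by
    have h4 : HasSum (fun m => if m ∈ Ms M' then (c m.natAbs : ℂ) * F m else 0)
        (∑ m ∈ Ms M', if m ∈ Ms M' then (c m.natAbs : ℂ) * F m else 0) :=
      hasSum_sum_of_ne_finset_zero fun m hm => if_neg hm
    rwa [sum_congr rfl fun m hm => if_pos hm] at h4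
  have hle : ∀ m, ‖F m - if m ∈ Ms M' then (c m.natAbs : ℂ) * F m else 0‖ ≤ ‖F m‖ := fun m => by
    split_ifs
    · rw [← one_sub_mul, norm_mul, ← Complex.ofReal_one, ← Complex.ofReal_sub, Complex.norm_real,
        Real.norm_of_nonneg (sub_nonneg.2 (hc _).2)]
      exact mul_le_of_le_one_left (norm_nonneg _) (by linarith [(hc m.natAbs).1])
    · rw [sub_zero]
  have key := tail_KOne ((pois hg hy hL t).sub hs) (Ms M) (A := y * (C2 / r ^ j))
    (B := y * (C3 * (2 * q))) (by positivity) (by positivity)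
    ((hle 0).trans (by
      rw [hF]
      dsimp only
      rw [hn, Int.cast_zero, zero_mul]
      exact mul_le_mul_of_nonneg_left (h2 t) hy0.le))
    (fun m hm0 hm => (hle m).trans (by
      have hm1 : (M : ℝ) + 1 ≤ |(m : ℝ)| := by
        have h4 : (M : ℤ) + 1 ≤ |m| := by
          rw [mem_Ms] at hm
          rw [le_abs]
          omega
        exact_mod_cast h4
      have hm2 : (1 : ℝ) ≤ |(m : ℝ)| := by exact_mod_cast Int.one_le_abs hm0
      rw [hF]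
      dsimp only
      rw [hn, mul_assoc, mul_assoc]
      refine mul_le_mul_of_nonneg_left ((h3 _ _ (mul_ne_zero (Int.cast_ne_zero.2 hm0)
        hy0.ne')).trans (mul_le_mul_of_nonneg_left ?_ hC3.le)) hy0.le
      have h5 : r / |(m : ℝ) * y| ≤ r / (y * (M + 1)) := by
        rw [abs_mul, abs_of_pos hy0, mul_comm _ y]
        gcongr
      have h6 : (r / |(m : ℝ) * y|) ^ 2 ≤ 2 * (r / y) ^ 2 * kp (m : ℝ) := by
        have h7 : (1 : ℝ) ≤ (m : ℝ) ^ 2 := by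
          rw [← sq_abs]
          nlinarith
        have h8 : 1 / (m : ℝ) ^ 2 ≤ 2 * kp (m : ℝ) := by
          rw [kp, mul_one_div, div_le_div_iff₀ (by positivity) (by positivity)]
          linarith
        calc (r / |(m : ℝ) * y|) ^ 2 = (r / y) ^ 2 * (1 / (m : ℝ) ^ 2) := by
              rw [div_pow, sq_abs, div_pow]
              field_simp
          _ ≤ (r / y) ^ 2 * (2 * kp (m : ℝ)) := by gcongr
          _ = _ := by ring
      have h9 : 0 ≤ r / |(m : ℝ) * y| := by positivity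
      rw [pow_add]
      exact (mul_le_mul (pow_le_pow_left₀ h9 h5 j) h6 (by positivity) (by positivity)).trans_eq
        (by rw [hq]; ring)))
  have hz : ∑ m ∈ Ms M, (F m - if m ∈ Ms M' then (c m.natAbs : ℂ) * F m else 0) = 0 :=
    sum_eq_zero fun m hm => by
      rw [mem_Ms] at hm
      rw [if_pos (mem_Ms.2 (by omega)), hc1 _ (by omega), Complex.ofReal_one, one_mul, sub_self]
  rw [hz, sub_zero] at key
  have h4 := h1 y M' c hy0 hc t 1 abs_one
  have h5 := h1 y M' c hy0 hc t (-1) (by rw [abs_neg, abs_one])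
  simp only [one_mul, neg_mul] at h4 h5
  have h6 : ‖∑ m ∈ Ms M', (c m.natAbs : ℂ) * F m‖ ≤ y * (2 * (C1 * hf y * I)) := by
    simp only [hF, mul_left_comm (c _ : ℂ)]
    rw [← mul_sum, hn, sum_Ms_Refl]
    simp only [Int.cast_neg, Int.cast_natCast, neg_mul, Int.natAbs_neg, Int.natAbs_natCast]
    exact mul_le_mul_of_nonneg_left ((norm_add_le _ _).trans ((add_le_add h4 h5).trans_eq
      (by ring))) hy0.le
  have h7 := (norm_le_norm_add_norm_sub' _ _).trans (add_le_add h6 key)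
  have h8 : hf y * y = √y := by
    rw [hf, one_div_mul_eq_div, Real.div_sqrt]
  have h9 : hf y * y * hf y = 1 := by
    rw [mul_right_comm, ← sq, hf_sq hy0.le, one_div_mul_cancel hy0.ne']
  rw [SZ_eq f hy0, norm_mul, Complex.norm_real, Real.norm_of_nonneg (hf_nonneg _)]
  refine (mul_le_mul_of_nonneg_left h7 (hf_nonneg y)).trans ?_
  have e : hf y * (y * (2 * (C1 * hf y * I)) + (y * (C2 / r ^ j) + 6 * (y * (C3 * (2 * q))))) =
      2 * C1 * I * (hf y * y * hf y) + C2 * (hf y * y / r ^ j) + 12 * C3 * (hf y * y * q) := by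
    ring
  rw [e, h9, h8, mul_assoc (√y), ← hq]
  have p1 : 0 ≤ √y / r ^ j := by positivity
  have p2 : 0 ≤ √y * q := by positivity
  generalize √y / r ^ j = P at p1 ⊢
  generalize √y * q = Q at p2 ⊢
  nlinarith [mul_nonneg hC1.le p1, mul_nonneg hC1.le p2, mul_nonneg hC2.le hI0,
    mul_nonneg hC2.le p2, mul_nonneg hC3.le hI0, mul_nonneg hC3.le p1]

end Pool.Agent.MP_c853c5_nt.R
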