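import Pool.Agent.MP_c853c5_nt.R.WDefs
import Pool.Agent.MP_c853c5_nt.W.Defs

/-!
The twisted fourth moment on a grid.
-/

set_option autoImplicit false

open Finset

namespace Pool.Agent.MP_c853c5_nt.R

theorem wattIn_of (h : W.WattD) : WattIn := by
  intro ε hε
  obtain ⟨C, hC, h⟩ := h ε hε
  refine ⟨C, hC, fun T y u N α S hT hy hy' hN hN' hα hS => ?_⟩
  have hi : Function.Injective fun m : ℤ => u + m := fun a b hab =>
    Int.cast_injective (add_left_cancel hab)
  have := h N T y α (S.map ⟨_, hi⟩) hT hy hy' hN hN' hα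
    (fun t ht => by
      obtain ⟨m, hm, rfl⟩ := mem_map.1 ht
      exact hS m hm)
    (fun s hs t ht hst => by
      obtain ⟨a, -, rfl⟩ := mem_map.1 hs
      obtain ⟨b, -, rfl⟩ := mem_map.1 ht
      have h1 : a - b ≠ 0 := fun h1 => hst (by rw [sub_eq_zero.1 h1])
      change 1 ≤ |u + a - (u + b)|
      rw [add_sub_add_left_eq_sub]
      exact_mod_cast Int.one_le_abs h1)
  rw [sum_map] at this
  exact this.trans_eq (by ring)

end Pool.Agent.MP_c853c5_nt.R
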