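import Pool.Agent.MP_c853c5_nt.R.Wm

/-!
The mixed moment at all heights.
-/

set_option autoImplicit false

open Finset Filter

namespace Pool.Agent.MP_c853c5_nt.R

open Pool.Agent.MP_2a1f0e_nt Pool.Agent.MP_2a1f0e_nt.GM Pool.Agent.MP_2a1f0e_nt.DH
open Pool.Agent.MP_c853c5_nt.E

lemma lg_WmS {q X : ℝ} {n : ℕ} (hq : 4 / 3 ≤ q) (h : q ^ n ≤ X) : (n : ℝ) ≤ 4 * Real.log X := by
  have h1 := Real.log_le_log (by positivity)
    ((pow_le_pow_left₀ (by norm_num) hq n).trans h)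
  have h2 := Real.one_sub_inv_le_log_of_pos (show (0 : ℝ) < 4 / 3 by norm_num)
  rw [Real.log_pow] at h1
  nlinarith [Nat.cast_nonneg (α := ℝ) n]

lemma dy_WmS {G : ℝ → ℝ} {a H Ω : ℝ} {L : ℕ} (ha : 0 < a)
    (h : ∀ i : ℕ, a * 2 ^ i ≤ H → WB G (a * 2 ^ i) (a * 2 ^ (i + 1)) L Ω) (i : ℕ)
    (hi : a * 2 ^ i ≤ H) : WB G a (a * 2 ^ (i + 1)) L ((i + 1) * Ω) := by
  induction i with
  | zero => simpa using h 0 hi
  | succ i ih =>
    refine ((ih (le_trans ?_ hi)).union (h _ hi)).weak le_rfl le_rfl (le_of_eq ?_)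
    · gcongr
      · norm_num
      · omega
    · push_cast
      ring

lemma n1_WmS {p q : ℝ} (h : p ≤ q) (h' : 48 ≤ q) : 36 * p ≤ 3 / 4 * (q * q) := by nlinarith

lemma n2_WmS {x : ℝ} (h : 136 ≤ x) : 8 * x * (17 * x) ≤ x ^ 3 := by
  nlinarith [mul_nonneg (sub_nonneg.2 h) (sq_nonneg x)]

lemma n3_WmS {s l : ℝ} (hs : 0 ≤ s) (hl : 1 ≤ l) :
    s ≤ √(2 * (s * s * l)) ∧ √(2 * (s * s * l)) ≤ 2 * l * s := by
  have h := mul_nonneg hs hs
  exact ⟨Real.le_sqrt_of_sq_le (by nlinarith),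
    Real.sqrt_le_iff.2 ⟨by positivity, by nlinarith [mul_nonneg h (sub_nonneg.2 hl)]⟩⟩

theorem wm_stmt (hW : WattIn) : WmStmt := by
  intro δ ε hδ hδ' hε
  obtain ⟨d, hd, d1, d2⟩ : ∃ d : ℝ, 0 < d ∧ 4 * d ≤ δ ∧ 32 * d ≤ ε :=
    ⟨min (δ / 4) (ε / 32), by positivity, by linarith [min_le_left (δ / 4) (ε / 32)],
      by linarith [min_le_right (δ / 4) (ε / 32)]⟩
  obtain ⟨j, hj⟩ := exists_nat_ge (3 / d)
  rw [div_le_iff₀ hd] at hj
  obtain ⟨C1, hC1, h1⟩ := ht_Wm j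
  obtain ⟨C2, hC2, h2⟩ := base_WB hW (show 0 < ε / 4 by positivity)
  refine ⟨d, hd, ?_⟩
  filter_upwards [eventually_ge_atTop 136, ev_const_le 48 (half_pos hδ),
    ev_log_le 2 3 one_half_pos, ev_le_log 1,
    ev_log_le (5 * (C1 * (13 ^ 4 * (2 * (C2 * (25 * (36 ^ 2 * 2))))))) 10
      (show 0 < ε / 4 by positivity)] with x x1 x2 x3 x4 x5 τ y L hτ hτ' hy hy' hL hL'
  have x0 : 0 < x := by linarith only [x1]
  have mono : ∀ {a a' : ℝ}, a ≤ a' → x ^ a ≤ x ^ a' := fun h =>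
    Real.rpow_le_rpow_of_exponent_le (by linarith only [x1]) h
  obtain ⟨l, hl⟩ : ∃ l, l = Real.log x := ⟨_, rfl⟩
  obtain ⟨P, hP⟩ : ∃ P, P = x ^ d := ⟨_, rfl⟩
  rw [← hl] at x3 x4 x5 ⊢
  obtain ⟨H, hH⟩ : ∃ H, H = x ^ τ * l ^ 3 := ⟨_, rfl⟩
  have l3 : 1 ≤ l ^ 3 := one_le_pow₀ x4
  have P1 : 1 ≤ P := hP ▸ Real.one_le_rpow (by linarith only [x1]) hd.le
  have pw1 : ∀ (n : ℕ) {a : ℝ}, d * n ≤ a → P ^ n ≤ x ^ a := fun n a h => by
    rw [hP, ← Real.rpow_mul_natCast x0.le]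
    exact mono h
  have P2 : P ^ 2 ≤ x ^ (δ / 2) := pw1 2 (by push_cast; linarith only [d1])
  have e1 : x ^ δ = x ^ (δ / 2) * x ^ (δ / 2) := by rw [← Real.rpow_add x0, add_halves]
  have e2 : x ^ τ = x ^ (τ / 2) * x ^ (τ / 2) := by rw [← Real.rpow_add x0, add_halves]
  have a0 : 0 < x ^ δ := by positivity
  have t0 : 0 < x ^ τ := by positivity
  have a1 : 36 * P ^ 2 ≤ 3 / 4 * x ^ δ := e1 ▸ n1_WmS P2 x2
  have H1 : x ^ τ ≤ H := hH ▸ le_mul_of_one_le_right t0.le l3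
  have H0 : 0 < H := t0.trans_le H1
  have H2 : 2 * H ≤ x := by
    calc _ = x ^ τ * (2 * l ^ 3) := by rw [hH]; ring
      _ ≤ x ^ (1 / 2 : ℝ) * x ^ (1 / 2 : ℝ) := mul_le_mul (mono hτ') x3 (by positivity)
          (by positivity)
      _ = x := by rw [← Real.rpow_add x0, add_halves, Real.rpow_one]
  obtain ⟨H3, H4⟩ := n3_WmS (Real.rpow_nonneg x0.le (τ / 2)) l3
  rw [← e2, ← hH] at H3 H4
  have b4 : 1 ≤ P ^ 2 := one_le_pow₀ P1
  have P3 : P ≤ 36 * P ^ 2 := by linarith only [b4, le_self_pow₀ P1 two_ne_zero]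
  have L1 : (L : ℝ) ≤ √(2 * H) * (36 * P ^ 2) := by
    refine hL'.trans ?_
    rw [Real.rpow_add x0, ← hP]
    gcongr
  have L2 : (L : ℝ) ≤ x :=
    hL'.trans ((mono (by linarith only [hτ', d1, hδ'])).trans_eq (Real.rpow_one x))
  obtain ⟨Ω, hΩ⟩ : ∃ Ω, Ω = C2 * ((Nat.log 2 L : ℝ) + 1) ^ 2 * (2 * H) ^ (ε / 4) *
    (36 * P ^ 2) ^ 2 * (2 * H + √(2 * H) * (L : ℝ) ^ 2) := ⟨_, rfl⟩
  have key : ∀ i : ℕ, x ^ δ * 2 ^ i ≤ H → WB (fun t => ‖ZS y t‖ / √y) (x ^ δ * 2 ^ i)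
      (x ^ δ * 2 ^ (i + 1)) L (C1 * (P * (13 * l)) ^ 4 * (Ω + Ω)) := fun i hi => by
    have b1 : x ^ δ ≤ x ^ δ * 2 ^ i := le_mul_of_one_le_right a0.le (one_le_pow₀ one_le_two)
    have b2 : x ^ δ * 2 ^ (i + 1) = 2 * (x ^ δ * 2 ^ i) := by ring
    rw [b2]
    generalize x ^ δ * 2 ^ i = A at hi b1
    obtain ⟨T, rfl⟩ : ∃ T, A = 4 / 3 * T := ⟨3 / 4 * A, by ring⟩
    have b3 : 36 * P ^ 2 ≤ T := by linarith only [a1, b1]
    have b5 : T ≤ H := by linarith only [hi, b3, b4]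
    have b6 : T ≤ x := by linarith only [b5, H2, H0]
    have b7 : 2 ≤ T := by linarith only [b3, b4]
    have b8 : 1 ≤ 36 * P ^ 2 := by linarith only [b4]
    refine (h1 T P y (Ω + Ω) (13 * l) L P1 (P3.trans b3) hy ?_ (by linarith only [x4])
      (fun n hn => ?_) fun y' p1 p2 => ?_).weak le_rfl (le_of_eq (by ring)) le_rfl
    · have c1 : √y ≤ 8 * x := (Real.sqrt_le_left (by linarith only [hy]) |>.2
        (le_self_pow₀ (by linarith only [hy]) two_ne_zero)).trans hy'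
      calc _ ≤ 8 * x * (17 * x) := by gcongr
        _ ≤ x ^ 3 := n2_WmS x1
        _ ≤ _ := by
          rw [hP, ← Real.rpow_mul_natCast x0.le, ← Real.rpow_natCast]
          exact mono (by push_cast; linarith only [hj])
    · have c0 : P ≤ x := (P3.trans b3).trans b6
      have c1 := lg_WmS le_rfl (hn.trans (show _ ≤ x ^ 3 by
        calc 5 * T * P ≤ x * x * x := by
              gcongr
              linarith only [x1]
          _ = _ := by ring))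
      rw [Real.log_pow, ← hl] at c1
      push_cast at c1
      linarith only [c1, x4]
    · rw [hΩ]
      exact ((h2 T (2 * H) y' _ L b7 (by linarith only [b5, H0]) b8 b3 p1 p2 hL L1).union
        (h2 (2 * T) (2 * H) y' _ L (by linarith only [b7]) (by linarith only [b5]) b8
          (by linarith only [b3, b7]) p1 (p2.trans (mul_le_mul_of_nonneg_right
            (by linarith only [b7]) (by positivity))) hL L1)).weak le_rfl (le_of_eq (by ring)) le_rfl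
  obtain ⟨I, I1, I2⟩ := exists_nat_pow_near (x := H / x ^ δ) (y := (2 : ℝ))
    ((one_le_div a0).2 ((mono (by linarith only [hτ, hδ'])).trans H1)) one_lt_two
  rw [le_div_iff₀' a0] at I1
  rw [div_lt_iff₀' a0] at I2
  rw [← hH]
  refine (dy_WmS a0 key I I1).weak le_rfl I2.le ?_
  have c1 : (I : ℝ) + 1 ≤ 5 * l := by
    have := lg_WmS (q := 2) (X := x) (n := I) (by norm_num) ((le_mul_of_one_le_left
      (by positivity) (Real.one_le_rpow (by linarith only [x1]) hδ.le)).trans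
        (I1.trans (by linarith only [H2, H0])))
    linarith only [this, hl, x4]
  have c2 : (Nat.log 2 L : ℝ) + 1 ≤ 5 * l := by
    have := lg_WmS (q := 2) (X := x) (n := Nat.log 2 L) (by norm_num) (le_trans
      (by exact_mod_cast Nat.pow_log_le_self 2 (by omega)) L2)
    linarith only [this, hl, x4]
  have c3 : (2 * H) ^ (ε / 4) ≤ x ^ (ε / 4) :=
    Real.rpow_le_rpow (by positivity) H2 (by positivity)
  have c4 : 2 * H + √(2 * H) * (L : ℝ) ^ 2 ≤ 2 * l ^ 3 * (x ^ τ + x ^ (τ / 2) * (L : ℝ) ^ 2) :=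
    (add_le_add le_rfl (mul_le_mul_of_nonneg_right H4 (sq_nonneg (L : ℝ)))).trans_eq
      (by rw [hH]; ring)
  have c5 : P ^ 8 ≤ x ^ (ε / 4) := pw1 8 (by push_cast; linarith only [d2])
  have c6 : x ^ (ε / 4) * x ^ (ε / 4) * x ^ (ε / 4) ≤ x ^ ε := by
    rw [← Real.rpow_add x0, ← Real.rpow_add x0]
    exact mono (by linarith only [hε])
  have l0 : 0 < l := by linarith only [x4]
  have c7 : Ω ≤ C2 * (5 * l) ^ 2 * x ^ (ε / 4) * (36 * P ^ 2) ^ 2 *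
      (2 * l ^ 3 * (x ^ τ + x ^ (τ / 2) * (L : ℝ) ^ 2)) := by
    rw [hΩ]
    gcongr
  have c8 : 0 ≤ Ω := by rw [hΩ]; positivity
  calc _ ≤ 5 * l * (C1 * (P * (13 * l)) ^ 4 * (2 * (C2 * (5 * l) ^ 2 * x ^ (ε / 4) *
        (36 * P ^ 2) ^ 2 * (2 * l ^ 3 * (x ^ τ + x ^ (τ / 2) * (L : ℝ) ^ 2))))) := by
        rw [← two_mul]
        gcongr
    _ = 5 * (C1 * (13 ^ 4 * (2 * (C2 * (25 * (36 ^ 2 * 2)))))) * l ^ 10 * P ^ 8 * x ^ (ε / 4) *
        (x ^ τ + x ^ (τ / 2) * (L : ℝ) ^ 2) := by ring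
    _ ≤ x ^ (ε / 4) * x ^ (ε / 4) * x ^ (ε / 4) * (x ^ τ + x ^ (τ / 2) * (L : ℝ) ^ 2) := by gcongr
    _ ≤ _ := by gcongr

end Pool.Agent.MP_c853c5_nt.R
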