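import Pool.Agent.MP_c853c5_nt.R.WHook
import Pool.Agent.MP_c853c5_nt.R.WmS
import Pool.Agent.MP_c853c5_nt.R.WIn
import Pool.Agent.MP_c853c5_nt.E.Core
import Pool.Agent.MP_c853c5_nt.E.Grd
import Pool.Agent.MP_c853c5_nt.E.Hal
import Pool.Agent.MP_c853c5_nt.E.Lev
import Pool.Agent.MP_c853c5_nt.E.Prod
import Pool.Agent.MP_c853c5_nt.E.Tb
import Pool.Agent.MP_c853c5_nt.E.Tr

/-!
Type I with the twisted fourth moment.
-/

set_option autoImplicit false

namespace Pool.Agent.MP_c853c5_nt.R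

open Pool.Agent.MP_c853c5_nt.E

theorem e1dW_exp (hE : E.ExpStmt) (h : W.WattD) : E1DW :=
  e1dW_of (wm_stmt (wattIn_of h)) (prod_stmt mul_stmt) (con_stmt hE (prod_stmt mul_stmt))
    (core_stmt (con_stmt hE (prod_stmt mul_stmt)) lev_stmt) self_stmt E.av_stmt grd_stmt
    (tb_stmt tr_stmt)

theorem e12dW_exp (hE : E.ExpStmt) (h : W.WattD) : E12DW :=
  e12dW_of (wm_stmt (wattIn_of h)) (prod_stmt mul_stmt) (con_stmt hE (prod_stmt mul_stmt))
    (core_stmt (con_stmt hE (prod_stmt mul_stmt)) lev_stmt) self_stmt E.av_stmt grd_stmt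
    (tb_stmt tr_stmt)

end Pool.Agent.MP_c853c5_nt.R
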