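import Pool.Agent.MP_c853c5_nt.R.WDefs
import Pool.Agent.MP_c853c5_nt.R.Smo
import Pool.Agent.MP_c853c5_nt.E.Slv

/-!
Rules for the mixed moments.
-/

set_option autoImplicit false

open Finset Filter

namespace Pool.Agent.MP_c853c5_nt.R

open Pool.Agent.MP_2a1f0e_nt Pool.Agent.MP_2a1f0e_nt.GM Pool.Agent.MP_2a1f0e_nt.DH
open Pool.Agent.MP_c853c5_nt.E MeasureTheory

variable {F G : ℝ → ℝ} {a b : ℝ} {L : ℕ} {Ω Ω' : ℝ}

lemma WB.nonneg (h : WB G a b L Ω) : 0 ≤ Ω := by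
  simpa using h 0 ∅ (fun _ => 0) (by simp) (by simp)

lemma WB.weak {a' b' : ℝ} (h : WB G a b L Ω) (ha : a ≤ a') (hb : b' ≤ b) (hΩ : Ω ≤ Ω') :
    WB G a' b' L Ω' := fun u S c hc hS =>
  (h u S c hc fun m hm => ⟨ha.trans (hS m hm).1, (hS m hm).2.trans hb⟩).trans hΩ

lemma WB.mono {lam : ℝ} (h : WB G a b L Ω)
    (hF : ∀ t, a ≤ t → t ≤ b → 0 ≤ F t ∧ F t ≤ lam * G t) : WB F a b L (lam ^ 4 * Ω) := by
  intro u S c hc hS
  refine le_trans ?_ (mul_le_mul_of_nonneg_left (h u S c hc hS) (by positivity))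
  rw [mul_sum]
  refine sum_le_sum fun m hm => ?_
  obtain ⟨h1, h2⟩ := hF _ (hS m hm).1 (hS m hm).2
  rw [← mul_assoc, ← mul_pow]
  exact mul_le_mul_of_nonneg_right (pow_le_pow_left₀ h1 h2 4) (by positivity)

lemma WB.union {d : ℝ} (h : WB G a b L Ω) (h' : WB G b d L Ω') : WB G a d L (Ω + Ω') := by
  intro u S c hc hS
  rw [← sum_filter_add_sum_filter_not S fun m : ℤ => u + m ≤ b]
  exact add_le_add
    (h u _ c hc fun m hm => ⟨(hS m (mem_filter.1 hm).1).1, (mem_filter.1 hm).2⟩)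
    (h' u _ c hc fun m hm => ⟨(not_le.1 (mem_filter.1 hm).2).le, (hS m (mem_filter.1 hm).1).2⟩)

lemma WB.sum {ι : Type} (J : Finset ι) {H : ι → ℝ → ℝ} (h0 : ∀ j ∈ J, ∀ t, 0 ≤ H j t)
    (h : ∀ j ∈ J, WB (H j) a b L Ω) :
    WB (fun t => ∑ j ∈ J, H j t) a b L ((J.card : ℝ) ^ 4 * Ω) := by
  intro u S c hc hS
  calc _ ≤ ∑ m ∈ S, ((J.card : ℝ) ^ 3 * ∑ j ∈ J, H j (u + m) ^ 4) * ‖NP L c m‖ ^ 2 :=
        sum_le_sum fun m _ => mul_le_mul_of_nonneg_right
          (pow_sum_le_card_mul_sum_pow (fun j hj => h0 j hj _) 3) (by positivity)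
    _ = (J.card : ℝ) ^ 3 * ∑ j ∈ J, ∑ m ∈ S, H j (u + m) ^ 4 * ‖NP L c m‖ ^ 2 := by
        rw [sum_comm, mul_sum]
        exact sum_congr rfl fun m _ => by rw [mul_assoc, sum_mul]
    _ ≤ (J.card : ℝ) ^ 3 * (J.card • Ω) :=
        mul_le_mul_of_nonneg_left (sum_le_card_nsmul _ _ _ fun j hj => h j hj u S c hc hS)
          (by positivity)
    _ = _ := by rw [nsmul_eq_mul]; ring

lemma WB.add (hF : ∀ t, 0 ≤ F t) (hG : ∀ t, 0 ≤ G t) (h : WB F a b L Ω) (h' : WB G a b L Ω) :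
    WB (fun t => F t + G t) a b L (16 * Ω) := by
  have := WB.sum (univ : Finset Bool) (H := fun j => cond j F G)
    (fun j _ t => by cases j; exacts [hG t, hF t]) fun j _ => by cases j; exacts [h', h]
  simp only [Fintype.sum_bool, card_univ, Fintype.card_bool, cond] at this
  norm_num at this
  exact this

lemma jen_WB {B : ℝ} (hc : Continuous G) (hG : ∀ t, 0 ≤ G t ∧ G t ≤ B) (t : ℝ) :
    Integrable (fun ξ : ℝ => kp ξ * G (t + ξ) ^ 4) ∧
    (∫ ξ : ℝ, kp ξ * G (t + ξ)) ^ 4 ≤ 1024 * ∫ ξ : ℝ, kp ξ * G (t + ξ) ^ 4 := by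
  have hi : Integrable (fun ξ : ℝ => kp ξ * G (t + ξ) ^ 4) :=
    int_kp_bdd (G := fun t => G t ^ 4) (B := B ^ 4) (hc.pow 4) (fun s => by
      rw [abs_of_nonneg (by positivity)]
      exact pow_le_pow_left₀ (hG s).1 (hG s).2 4) t
  have hi1 := int_kp_bdd hc (fun s => (abs_of_nonneg (hG s).1).trans_le (hG s).2) t
  refine ⟨hi, ?_⟩
  set I := ∫ ξ : ℝ, kp ξ * G (t + ξ) with hI
  have hI0 : 0 ≤ I := integral_nonneg fun ξ => mul_nonneg (kp_pos ξ).le (hG _).1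
  have h1 : ∫ ξ : ℝ, (I / 8) ^ 3 * (kp ξ * G (t + ξ)) ≤
      ∫ ξ : ℝ, (kp ξ * (I / 8) ^ 4 + kp ξ * G (t + ξ) ^ 4) := by
    refine integral_mono (hi1.const_mul _) ((integrable_kp.mul_const _).add hi) fun ξ => ?_
    have h0 := (hG (t + ξ)).1
    have h2 : (I / 8) ^ 3 * G (t + ξ) ≤ (I / 8) ^ 4 + G (t + ξ) ^ 4 := by
      rcases le_total (I / 8) (G (t + ξ)) with h | h
      · refine le_add_of_nonneg_of_le (by positivity) ?_
        rw [pow_succ _ 3]
        gcongr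
      · refine le_add_of_le_of_nonneg ?_ (by positivity)
        rw [pow_succ _ 3]
        gcongr
    have h3 := mul_le_mul_of_nonneg_left h2 (kp_pos ξ).le
    dsimp only
    linarith
  rw [integral_const_mul, integral_add (integrable_kp.mul_const _) hi, integral_mul_const,
    integral_kp, ← hI] at h1
  have h4 : 0 ≤ (I / 8) ^ 4 := by positivity
  have h5 : (I / 8) ^ 3 * I = 8 * (I / 8) ^ 4 := by ring
  have h6 : I ^ 4 = 4096 * (I / 8) ^ 4 := by ring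
  nlinarith [Real.pi_le_four]

/-- an average of shifts -/
lemma WB.shift {B R Q : ℝ} (hc : Continuous G) (hG : ∀ t, 0 ≤ G t ∧ G t ≤ B) (hR : 0 < R)
    (hQ : B ^ 4 ≤ Q * R) (h : WB G (a - R) (b + R) L Ω) (h1 : WB (fun _ => 1) a b L Ω) :
    WB (fun t => ∫ ξ : ℝ, kp ξ * G (t + ξ)) a b L (8192 * (1 + Q) * Ω) := by
  intro u S c hc' hS
  have hΩ := h.nonneg
  have hQ0 : 0 ≤ Q := nonneg_of_mul_nonneg_left ((by positivity : 0 ≤ B ^ 4).trans hQ) hR
  have hi : ∀ m ∈ S, Integrable fun ξ : ℝ => kp ξ * G (u + m + ξ) ^ 4 * ‖NP L c m‖ ^ 2 :=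
    fun m _ => (jen_WB hc hG _).1.mul_const _
  have hk : Integrable fun ξ : ℝ => kp (ξ / R) := integrable_kp.comp_div hR.ne'
  have h2 : ∫ ξ : ℝ, ∑ m ∈ S, kp ξ * G (u + m + ξ) ^ 4 * ‖NP L c m‖ ^ 2 ≤
      ∫ ξ : ℝ, (kp ξ * Ω + kp (ξ / R) * (2 * Q / R * Ω)) := by
    refine integral_mono (integrable_finsetSum _ hi)
      ((integrable_kp.mul_const _).add (hk.mul_const _)) fun ξ => ?_
    have k1 := kp_pos ξ
    have k2 := kp_pos (ξ / R)
    simp only [mul_assoc (kp ξ)]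
    rw [← mul_sum]
    rcases le_total |ξ| R with h3 | h3
    · refine le_add_of_le_of_nonneg (mul_le_mul_of_nonneg_left ?_ k1.le) (by positivity)
      have h4 := h (u + ξ) S c hc' fun m hm => by
        constructor <;> linarith [(hS m hm).1, (hS m hm).2, (abs_le.1 h3).1, (abs_le.1 h3).2]
      simpa only [add_right_comm u ξ] using h4
    · refine le_add_of_nonneg_of_le (by positivity) ?_
      have h4 : ∑ m ∈ S, G (u + m + ξ) ^ 4 * ‖NP L c m‖ ^ 2 ≤ Q * R * Ω := by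
        refine le_trans ?_ (mul_le_mul_of_nonneg_left (h1 u S c hc' hS) (by positivity))
        rw [mul_sum]
        refine sum_le_sum fun m _ => ?_
        rw [one_pow, one_mul]
        exact mul_le_mul_of_nonneg_right
          ((pow_le_pow_left₀ (hG _).1 (hG _).2 4).trans hQ) (by positivity)
      have h5 : kp ξ * R ^ 2 ≤ 2 * kp (ξ / R) := by
        have h6 : R ^ 2 ≤ ξ ^ 2 := by
          rw [← sq_abs ξ]
          gcongr
        rw [kp, kp, div_pow, one_add_div (by positivity), one_div_div, one_div_mul_eq_div,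
          ← mul_div_assoc, div_le_div_iff₀ (by positivity) (by positivity)]
        nlinarith [mul_le_mul_of_nonneg_left h6 (sq_nonneg R), sq_nonneg R]
      calc _ ≤ kp ξ * (Q * R * Ω) := mul_le_mul_of_nonneg_left h4 k1.le
        _ = kp ξ * R ^ 2 * (Q / R * Ω) := by field_simp
        _ ≤ 2 * kp (ξ / R) * (Q / R * Ω) := by gcongr
        _ = _ := by ring
  rw [integral_finsetSum _ hi, integral_add (integrable_kp.mul_const _) (hk.mul_const _),
    integral_mul_const, integral_mul_const, Measure.integral_comp_div kp R, integral_kp,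
    abs_of_pos hR, smul_eq_mul] at h2
  have h3 : ∑ m ∈ S, (∫ ξ : ℝ, kp ξ * G (u + m + ξ)) ^ 4 * ‖NP L c m‖ ^ 2 ≤
      1024 * ∑ m ∈ S, ∫ ξ : ℝ, kp ξ * G (u + m + ξ) ^ 4 * ‖NP L c m‖ ^ 2 := by
    rw [mul_sum]
    refine sum_le_sum fun m _ => ?_
    rw [integral_mul_const, ← mul_assoc]
    exact mul_le_mul_of_nonneg_right (jen_WB hc hG _).2 (by positivity)
  have h4 : R * Real.pi * (2 * Q / R * Ω) = Real.pi * (2 * (Q * Ω)) := by field_simp
  rw [h4] at h2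
  have h5 := mul_nonneg hQ0 hΩ
  nlinarith [Real.pi_le_four, mul_le_mul_of_nonneg_right Real.pi_le_four hΩ,
    mul_le_mul_of_nonneg_right Real.pi_le_four h5]

lemma continuous_Zo (y : ℝ) : Continuous (Zo y) := continuous_PP _ _

lemma norm_Zo_le {y : ℝ} (hy : 0 ≤ y) (t : ℝ) : ‖Zo y t‖ ≤ 2 * y := by
  have := norm_PP_le (L := ⌊2 * y⌋₊) (c := fun n => (om ((n : ℝ) / y) : ℂ)) (B := 1)
    (fun l _ => by
      rw [Complex.norm_real]
      exact abs_oc_le y l) t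
  rw [mul_one] at this
  exact this.trans (Nat.floor_le (by positivity))

lemma div_Zo_le {y : ℝ} (hy : 0 < y) (t : ℝ) : ‖Zo y t‖ / √y ≤ 2 * √y := by
  rw [div_le_iff₀ (Real.sqrt_pos.2 hy), mul_assoc, Real.mul_self_sqrt hy.le]
  exact norm_Zo_le hy.le t

lemma card_WB {S : Finset ℤ} {u T : ℝ} (hT : 1 ≤ T)
    (hS : ∀ m ∈ S, T ≤ u + m ∧ u + m ≤ 2 * T) : (S.card : ℝ) ≤ 2 * T := by
  have h1 : S ⊆ Icc ⌈T - u⌉ ⌊2 * T - u⌋ := fun m hm => mem_Icc.2
    ⟨Int.ceil_le.2 (by linarith [(hS m hm).1]), Int.le_floor.2 (by linarith [(hS m hm).2])⟩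
  have h2 := card_le_card h1
  rw [Int.card_Icc] at h2
  have h3 : ((⌊2 * T - u⌋ + 1 - ⌈T - u⌉ : ℤ) : ℝ) ≤ 2 * T := by
    push_cast
    linarith [Int.floor_le (2 * T - u), Int.le_ceil (T - u)]
  rcases le_total (⌊2 * T - u⌋ + 1 - ⌈T - u⌉) 0 with h | h
  · rw [Int.toNat_of_nonpos h] at h2
    have : (S.card : ℝ) ≤ 0 := by exact_mod_cast h2
    linarith
  · have h4 : (S.card : ℤ) ≤ ⌊2 * T - u⌋ + 1 - ⌈T - u⌉ := by omega
    exact le_trans (by exact_mod_cast h4) h3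

/-- one dyadic range of heights -/
lemma base_WB (hW : WattIn) {ε : ℝ} (hε : 0 < ε) : ∃ C : ℝ, 1 ≤ C ∧
    ∀ (T T' y Λ : ℝ) (L : ℕ), 2 ≤ T → T ≤ T' → 1 ≤ Λ → Λ ≤ T → 0 < y → y ^ 2 ≤ T * Λ → 1 ≤ L →
      (L : ℝ) ≤ √T' * Λ →
      WB (fun t => ‖Zo y t‖ / √y) T (2 * T) L
        (C * ((Nat.log 2 L : ℝ) + 1) ^ 2 * T' ^ ε * Λ ^ 2 * (T' + √T' * (L : ℝ) ^ 2)) := by
  obtain ⟨C, hC, h⟩ := hW ε hε
  refine ⟨4 * C + 128, by linarith, fun T T' y Λ L hT hT' hΛ hΛ' hy hy' hL hL' u S c hc hS => ?_⟩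
  obtain ⟨β, hβ, hF⟩ := dec_Slv L hc
  have hT0 : 0 < T := by linarith
  have e1 : 1 ≤ T' ^ ε := Real.one_le_rpow (by linarith) hε.le
  have e2 : ∀ t, (‖Zo y t‖ / √y) ^ 4 = ‖Zo y t‖ ^ 4 / y ^ 2 := fun t => by
    rw [div_pow, show √y ^ 4 = (√y ^ 2) ^ 2 by ring, Real.sq_sqrt hy.le]
  have key : ∀ i ∈ range (Nat.log 2 L + 1), ∑ m ∈ S, (‖Zo y (u + m)‖ / √y) ^ 4 *
      ‖(hf ((2 ^ i : ℕ) : ℝ) : ℂ) * DP (2 ^ i) (β i) m‖ ^ 2 ≤
      (4 * C + 128) * T' ^ ε * Λ ^ 2 * (T' + √T' * (L : ℝ) ^ 2) := by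
    intro i hi
    have h4 : 2 ^ i ≤ L := (Nat.pow_le_pow_right (by norm_num)
      (Nat.lt_succ_iff.1 (mem_range.1 hi))).trans (Nat.pow_log_le_self 2 (by omega))
    have h5 : 1 ≤ 2 ^ i := Nat.one_le_two_pow
    generalize 2 ^ i = N at h4 h5
    have h6 : (N : ℝ) ≤ L := by exact_mod_cast h4
    have h7 : (1 : ℝ) ≤ N := by exact_mod_cast h5
    have e3 : ∀ z : ℂ, ‖(hf (N : ℝ) : ℂ) * z‖ ^ 2 = ‖z‖ ^ 2 / N := fun z => by
      rw [norm_mul, mul_pow, Complex.norm_real, Real.norm_of_nonneg (hf_nonneg _),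
        hf_sq (by positivity), one_div_mul_eq_div]
    have p1 : 0 ≤ T' + √T' * (L : ℝ) ^ 2 := by
      have : 0 ≤ T' := by linarith
      positivity
    simp only [e3]
    rcases le_total (N : ℝ) T with h8 | h8
    · have h9 := h T y u N (fun n => β i n * pw (n : ℝ) (-u)) S hT hy
        (le_of_pow_le_pow_left₀ (n := 2) (by norm_num) hT0.le (by nlinarith)) h5 h8
        (fun n => by rw [norm_mul, norm_pw, mul_one]; exact hβ i n) hS
      have e4 : ∀ m : ℤ, DP N (fun n => β i n * pw (n : ℝ) (-u)) (u + m) = DP N (β i) m :=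
        fun m => sum_congr rfl fun n _ => by
          rw [mul_assoc, ← pw_add, neg_add_cancel_left]
      simp only [e4] at h9
      simp only [e2, div_mul_div_comm]
      rw [← sum_div, div_le_iff₀ (by positivity)]
      refine h9.trans ?_
      have a1 : 1 + y ^ 2 / T ≤ 2 * Λ := by
        have : y ^ 2 / T ≤ Λ := by rwa [div_le_iff₀' hT0]
        linarith
      calc _ ≤ C * T' ^ ε * (T' + √T' * (L : ℝ) ^ 2) * y ^ 2 * N * (2 * Λ) ^ 2 := by gcongr
        _ = 4 * C * T' ^ ε * Λ ^ 2 * (T' + √T' * (L : ℝ) ^ 2) * (y ^ 2 * N) := by ring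
        _ ≤ _ := by gcongr; linarith
    · have a1 : ∀ m ∈ S, (‖Zo y (u + m)‖ / √y) ^ 4 * (‖DP N (β i) m‖ ^ 2 / N) ≤
          16 * (T * Λ) * (4 * N) := fun m _ => by
        refine mul_le_mul ?_ ?_ (by positivity) (by positivity)
        · refine (pow_le_pow_left₀ (by positivity) (div_Zo_le hy _) 4).trans ?_
          rw [mul_pow, show √y ^ 4 = (√y ^ 2) ^ 2 by ring, Real.sq_sqrt hy.le]
          linarith
        · have a2 : ‖DP N (β i) m‖ ≤ 2 * N := by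
            refine (norm_sum_le _ _).trans ((sum_le_card_nsmul _ _ 1 fun n _ => ?_).trans ?_)
            · rw [norm_mul, norm_pw, mul_one]
              exact hβ i n
            · rw [nsmul_eq_mul, mul_one]
              exact card_blk_le h5
          rw [div_le_iff₀ (by positivity)]
          nlinarith [norm_nonneg (DP N (β i) m)]
      refine (sum_le_card_nsmul _ _ _ a1).trans ?_
      rw [nsmul_eq_mul]
      calc _ ≤ 2 * T * (16 * (T * Λ) * (4 * N)) := by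
            gcongr
            exact card_WB (by linarith) hS
        _ = 128 * T * T * N * Λ := by ring
        _ ≤ 128 * (√T' * Λ) * L * L * Λ := by
            have a2 : T ≤ L := h8.trans h6
            have a3 : T ≤ √T' * Λ := a2.trans hL'
            gcongr
        _ = 128 * 1 * Λ ^ 2 * (0 + √T' * (L : ℝ) ^ 2) := by ring
        _ ≤ _ := by gcongr <;> linarith
  simp only [hF]
  calc _ ≤ ∑ m ∈ S, (‖Zo y (u + m)‖ / √y) ^ 4 * (((Nat.log 2 L : ℝ) + 1) *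
        ∑ i ∈ range (Nat.log 2 L + 1),
          ‖(hf ((2 ^ i : ℕ) : ℝ) : ℂ) * DP (2 ^ i) (β i) m‖ ^ 2) := by
        refine sum_le_sum fun m _ => mul_le_mul_of_nonneg_left ?_ (by positivity)
        refine (pow_le_pow_left₀ (norm_nonneg _) (norm_sum_le _ _) 2).trans
          (sq_sum_le_card_mul_sum_sq.trans_eq ?_)
        rw [card_range]
        push_cast
        rfl
    _ = ((Nat.log 2 L : ℝ) + 1) * ∑ i ∈ range (Nat.log 2 L + 1), ∑ m ∈ S,
        (‖Zo y (u + m)‖ / √y) ^ 4 * ‖(hf ((2 ^ i : ℕ) : ℝ) : ℂ) * DP (2 ^ i) (β i) m‖ ^ 2 := by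
        rw [sum_comm, mul_sum]
        exact sum_congr rfl fun m _ => by rw [mul_left_comm, mul_sum]
    _ ≤ ((Nat.log 2 L : ℝ) + 1) * ((range (Nat.log 2 L + 1)).card •
        ((4 * C + 128) * T' ^ ε * Λ ^ 2 * (T' + √T' * (L : ℝ) ^ 2))) :=
        mul_le_mul_of_nonneg_left (sum_le_card_nsmul _ _ _ key) (by positivity)
    _ = _ := by
        rw [nsmul_eq_mul, card_range]
        push_cast
        ring

end Pool.Agent.MP_c853c5_nt.R
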