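import Pool.Agent.MP_c853c5_nt.R.WDefs
import Pool.Agent.MP_c853c5_nt.E.Two
import Pool.Agent.MP_c853c5_nt.E.ConL

/-!
The mixed moment as a constraint on level sets.
-/

set_option autoImplicit false

open Finset Filter

namespace Pool.Agent.MP_c853c5_nt.R

open Pool.Agent.MP_2a1f0e_nt Pool.Agent.MP_2a1f0e_nt.GM Pool.Agent.MP_2a1f0e_nt.DH
open Pool.Agent.MP_c853c5_nt.E

lemma two_WHook {ι : Type} [Fintype ι] [DecidableEq ι] (κ : ι → ℕ) (i : ι) (f : ι → ℝ) :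
    ∑ j, ((κ j + if j = i then 2 else 0 : ℕ) : ℝ) * f j = ∑ j, (κ j : ℝ) * f j + 2 * f i := by
  push_cast
  simp only [add_mul, sum_add_distrib, ite_mul, zero_mul, sum_ite_eq', mem_univ, if_true]

lemma cs_WHook {W : Finset ℤ} {G F : ℤ → ℝ} {A V D Ω : ℝ} (hW : 0 < (W.card : ℝ)) (hA : 0 ≤ A)
    (hV : 0 ≤ V) (h1 : W.card * A ≤ D * ∑ t ∈ W, F t) (h2 : ∀ t ∈ W, V ≤ G t)
    (h3 : ∑ t ∈ W, G t ^ 4 * F t ^ 2 ≤ Ω) : W.card * (V ^ 4 * A ^ 2) ≤ D ^ 2 * Ω := by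
  have h4 : V ^ 4 * ∑ t ∈ W, F t ^ 2 ≤ Ω := by
    rw [mul_sum]
    exact (sum_le_sum fun t ht => mul_le_mul_of_nonneg_right
      (pow_le_pow_left₀ hV (h2 t ht) 4) (sq_nonneg _)).trans h3
  refine le_of_mul_le_mul_left ?_ hW
  calc _ = V ^ 4 * (W.card * A) ^ 2 := by ring
    _ ≤ V ^ 4 * (D * ∑ t ∈ W, F t) ^ 2 := by gcongr
    _ = D ^ 2 * (V ^ 4 * (∑ t ∈ W, F t) ^ 2) := by ring
    _ ≤ D ^ 2 * (V ^ 4 * (W.card * ∑ t ∈ W, F t ^ 2)) := by
        gcongr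
        exact sq_sum_le_card_mul_sum_sq
    _ = W.card * (D ^ 2 * (V ^ 4 * ∑ t ∈ W, F t ^ 2)) := by ring
    _ ≤ _ := by gcongr

theorem hk_W (hM : WmStmt) (hP : ProdStmt) (hC : ConStmt) (σ ι : Type) [Fintype σ] [Fintype ι]
    (K : ℕ) : Hk σ ι fun τ b r v => ∀ s, XW K τ b (Sum.inl s) r v := by
  classical
  refine ⟨fun τ b r v g hg h s κ hκ => le_trans ?_ (h s κ hκ),
    fun τ τ' b b' r v hτ hb h s => (h s).mono hτ hb, fun δ ε hδ hδ' hε => ?_⟩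
  · have : ∑ j, (κ j : ℝ) * (v j - g) ≤ ∑ j, (κ j : ℝ) * v j := sum_le_sum fun j _ =>
      mul_le_mul_of_nonneg_left (by linarith) (Nat.cast_nonneg _)
    linarith
  obtain ⟨m, hm⟩ : ∃ m : ℝ, m = (Fintype.card (σ ⊕ ι) : ℝ) * K := ⟨_, rfl⟩
  have hm0 : 0 ≤ m := by rw [hm]; positivity
  obtain ⟨g₁, hg₁, hM⟩ := hM δ (ε / 4) hδ hδ' (by positivity)
  obtain ⟨g₂, hg₂, hC⟩ := hC (σ ⊕ ι) (K + 2) ε hε
  obtain ⟨g, hg, g1, g2, g3⟩ : ∃ g : ℝ, 0 < g ∧ g ≤ g₁ ∧ g ≤ g₂ ∧ g ≤ ε / 8 :=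
    ⟨min g₁ (min g₂ (ε / 8)), by positivity, min_le_left _ _,
      (min_le_right _ _).trans (min_le_left _ _), (min_le_right _ _).trans (min_le_right _ _)⟩
  obtain ⟨γ, hγ, hγg⟩ : ∃ γ : ℝ, 0 < γ ∧ (2 * m + 1) * γ = g :=
    ⟨g / (2 * m + 1), by positivity, by field_simp⟩
  have hmγ : 0 ≤ m * γ := by positivity
  obtain ⟨C, -, hD0⟩ := exists_DivB (ε := γ / 2 / (1 + g)) (by positivity)
  refine ⟨γ, hγ, ?_⟩
  filter_upwards [hM, hC, ev_const_le C (half_pos hγ), eventually_gt_atTop 1,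
    ev_const_le 2 (show 0 < ε / 4 by positivity)] with x hM hC hCx hx h2
  intro τ u b y T L S φ h0 h1 hb hb' hT hTx hL hS hm' hy hφ' hφ hD W r v hW hv hr s κ hκ
  have hx0 : 0 < x := by linarith
  have mono : ∀ {a a' : ℝ}, a ≤ a' → x ^ a ≤ x ^ a' := fun h =>
    Real.rpow_le_rpow_of_exponent_le hx.le h
  rcases le_total (τ / 2) (∑ j, (κ j : ℝ) * b j) with hn | hn
  · have := (hC τ b T L S φ (by linarith) (by linarith) hb hT (hTx.trans (mono (by linarith)))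
      (fun j => ⟨(hL j).1, (hL j).2.trans (mono (by linarith))⟩) hS hφ
      (fun j => (hD j).mono (lam := 1) (by positivity) zero_le_one
        (by rw [one_mul]; exact mono (by linarith)) fun t ht => ⟨hφ j t ht, by rw [one_mul]⟩)
      W r v hW hv hr (fun j => κ j + if j = Sum.inl s then 2 else 0) fun j => by
        have := hκ j
        split_ifs <;> omega).1
    rw [two_WHook, two_WHook] at this
    have h3 := max_le_max (le_refl τ) (show ∑ j, (κ j : ℝ) * b j + 2 * b (Sum.inl s) ≤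
      τ / 2 + 2 * ∑ j, (κ j : ℝ) * b j by linarith [hb' s])
    linarith
  have hk : ∑ j, (κ j : ℝ) ≤ m := by
    rw [hm, ← nsmul_eq_mul, ← card_univ]
    exact sum_le_card_nsmul _ _ _ fun j _ => by exact_mod_cast hκ j
  have hkγ : (∑ j, (κ j : ℝ)) * γ ≤ m * γ := mul_le_mul_of_nonneg_right hk hγ.le
  have hL1 : 1 ≤ ∏ j, L j ^ κ j := one_le_prod' fun j _ => Nat.one_le_pow _ _ (hL j).1
  have hLx : ((∏ j, L j ^ κ j : ℕ) : ℝ) ≤ x ^ (∑ j, (κ j : ℝ) * b j + g) := by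
    push_cast
    refine (prod_le_prod (fun j _ => by positivity) fun j _ =>
      pow_le_pow_left₀ (by positivity) (hL j).2 _).trans ?_
    rw [prod_ConL hx0]
    refine mono ?_
    simp only [mul_add, sum_add_distrib, ← sum_mul]
    linarith
  have hΔ : C * ((∏ j, L j ^ κ j : ℕ) : ℝ) ^ (γ / 2 / (1 + g)) ≤ x ^ γ := by
    have e1 : ((∏ j, L j ^ κ j : ℕ) : ℝ) ^ (γ / 2 / (1 + g)) ≤ x ^ (γ / 2) := by
      refine (Real.rpow_le_rpow (Nat.cast_nonneg _) (hLx.trans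
        (mono (show _ ≤ 1 + g by linarith))) (by positivity)).trans (le_of_eq ?_)
      rw [← Real.rpow_mul hx0.le]
      congr 1
      field_simp
    refine (mul_le_mul hCx e1 (by positivity) (by positivity)).trans (le_of_eq ?_)
    rw [← Real.rpow_add hx0, add_halves]
  obtain ⟨c, hc, hs⟩ := hP _ S W φ L κ (x ^ γ) (x ^ γ) hW (fun j => (hL j).1) (by positivity) hφ hD
    ⟨(hD0 _ hL1).1.trans hΔ, fun n hn => ((hD0 _ hL1).2 n hn).trans hΔ⟩
  have e1 : (W.card : ℝ) * x ^ (∑ j, (κ j : ℝ) * v j) ≤ ∑ t ∈ W, ∏ j, φ j t ^ κ j := by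
    rw [← nsmul_eq_mul, ← prod_ConL hx0]
    exact card_nsmul_le_sum _ _ _ fun t ht => prod_le_prod (fun j _ => by positivity) fun j _ =>
      pow_le_pow_left₀ (by positivity) (hv j t ht) _
  have e2 : (x ^ γ * x ^ γ) ^ (∑ j, κ j) ≤ x ^ g := by
    rw [← Real.rpow_add hx0, ← Real.rpow_natCast, ← Real.rpow_mul hx0.le]
    refine mono ?_
    push_cast
    linarith
  have e3 := (e1.trans hs).trans
    (mul_le_mul_of_nonneg_right e2 (sum_nonneg fun _ _ => norm_nonneg _))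
  have e4 := hM τ (y s) _ h0 h1 (hy s).1 (hy s).2 hL1 (hLx.trans (mono (by linarith))) u W c hc
    fun t ht => hm' t (hW ht)
  have e5 := cs_WHook (V := x ^ v (Sum.inl s)) ((Real.rpow_pos_of_pos hx0 _).trans_le hr)
    (by positivity) (by positivity) e3 (fun t ht => (hv _ t ht).trans_eq (hφ' s t)) e4
  have hΛ : (0 : ℝ) ≤ ((∏ j, L j ^ κ j : ℕ) : ℝ) := Nat.cast_nonneg _
  generalize ∑ j, (κ j : ℝ) * b j = n at *
  generalize ∑ j, (κ j : ℝ) * v j = w at *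
  generalize ((∏ j, L j ^ κ j : ℕ) : ℝ) = Λ at *
  set M := max τ (τ / 2 + 2 * n) with hM'
  have e6 : x ^ τ + x ^ (τ / 2) * Λ ^ 2 ≤ x ^ (ε / 4) * x ^ (M + 2 * g) := by
    have a1 : x ^ τ ≤ x ^ (M + 2 * g) := mono (by linarith [le_max_left τ (τ / 2 + 2 * n)])
    have a2 : x ^ (τ / 2) * Λ ^ 2 ≤ x ^ (M + 2 * g) := by
      refine (mul_le_mul_of_nonneg_left (pow_le_pow_left₀ hΛ hLx 2) (by positivity)).trans ?_
      rw [← Real.rpow_mul_natCast hx0.le, ← Real.rpow_add hx0]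
      exact mono (by push_cast; linarith [le_max_right τ (τ / 2 + 2 * n)])
    have a3 := mul_le_mul_of_nonneg_right h2 (Real.rpow_nonneg hx0.le (M + 2 * g))
    linarith
  have e7 : x ^ (r + ε) * ((x ^ v (Sum.inl s)) ^ 4 * (x ^ w) ^ 2) ≤
      (x ^ g) ^ 2 * (x ^ (ε / 4) * (x ^ (ε / 4) * x ^ (M + 2 * g))) :=
    ((mul_le_mul_of_nonneg_right hr (by positivity)).trans e5).trans (by gcongr)
  simp only [← Real.rpow_mul_natCast hx0.le, ← Real.rpow_add hx0,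
    Real.rpow_le_rpow_left_iff hx] at e7
  push_cast at e7
  linarith

lemma EvalW.toX {σ ι ι' : Type} [Fintype σ] [Fintype ι] [Fintype ι'] (e : σ ⊕ ι ≃ ι')
    {sm : ι' → Prop} {K : ℕ} {τ s : ℝ} {b : σ ⊕ ι → ℝ} {b' : ι' → ℝ} (h : EvalW sm K τ s b')
    (hb : ∀ j, b j = b' (e j)) (hs : ∀ i, sm i → ∃ s, i = e (Sum.inl s)) :
    EvalX (fun r v => ∀ s, XW K τ b (Sum.inl s) r v) K τ 0 s b := by
  refine EvalX.equiv (X' := fun r v => ∀ i, sm i → XW K τ b' i r v) e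
    (fun r v h0 h1 h2 h3 h4 => by simpa using h r v h0 h1 h2 h3 h4) hb
    fun r v h4 i hi κ hκ => ?_
  obtain ⟨s, rfl⟩ := hs i hi
  rw [← e.sum_comp, ← e.sum_comp fun i => (κ i : ℝ) * b' i]
  simpa [hb] using h4 s (fun j => κ (e j)) fun j => hκ _

/-- one smooth slot -/
def eq1 (ι : Type) : Unit ⊕ ι ≃ Option ι where
  toFun := Sum.elim (fun _ => none) some
  invFun := fun o => o.elim (Sum.inl ()) Sum.inr
  left_inv := by rintro (_ | i) <;> rfl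
  right_inv := by rintro (_ | i) <;> rfl

theorem e1dW_of (hM : WmStmt) (hP : ProdStmt) (hN : ConStmt) (hC : E.CoreStmt) (hS : SelfStmt)
    (hA : E.AvStmt) (hI : GrdStmt) (hT : TbStmt) : E1DW := by
  intro ι _ τ t η K ht htτ hτ hη hη'
  obtain ⟨γ, hγ, h⟩ := e1dG hC hS hA hI hT Unit ι (hk_W hM hP hN Unit ι K) K τ t η ht htτ hτ hη hη'
  refine ⟨γ, hγ, h.mono fun x h a b N g d y ha _ hE hs hN l u _ hd hp => ?_⟩
  have := h a (fun _ => b) N g d (fun _ => y) ha (fun _ => hE.1)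
    (hE.2.toX (eq1 ι) (by rintro (_ | i) <;> rfl) fun i hi => ⟨(), hi⟩) hs hN (fun _ => ⟨l, u⟩) hd
    (by rw [Fintype.prod_unique (ι := Unit)]; exact hp)
  rwa [Fintype.prod_unique (ι := Unit)] at this

theorem e12dW_of (hM : WmStmt) (hP : ProdStmt) (hN : ConStmt) (hC : E.CoreStmt) (hS : SelfStmt)
    (hA : E.AvStmt) (hI : GrdStmt) (hT : TbStmt) : E12DW := by
  intro ι _ τ t η K ht htτ hτ hη hη'
  obtain ⟨γ, hγ, h⟩ := e1dG hC hS hA hI hT Bool ι (hk_W hM hP hN Bool ι K) K τ t η ht htτ hτ hη hη'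
  refine ⟨γ, hγ, h.mono fun x h a b1 b2 N g d y1 y2 ha _ _ hE hs hN l1 u1 l2 u2 _ _ hd hp => ?_⟩
  have := h a (fun s => bif s then b1 else b2) N g d (fun s => bif s then y1 else y2) ha
    (by rintro (_ | _); exacts [hE.2.1, hE.1])
    (hE.2.2.toX (eq2 ι) (by rintro ((_ | _) | i) <;> rfl) (by
      rintro _ (rfl | rfl)
      exacts [⟨true, rfl⟩, ⟨false, rfl⟩])) hs hN
    (by rintro (_ | _); exacts [⟨l2, u2⟩, ⟨l1, u1⟩]) hd
    (by rw [Fintype.prod_bool, ← mul_assoc]; exact hp)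
  rwa [Fintype.prod_bool, ← mul_assoc] at this

end Pool.Agent.MP_c853c5_nt.R
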