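import Pool.Agent.MP_c853c5_nt.R.WB
import Pool.Agent.MP_c853c5_nt.E.Av

/-!
The mixed moment for a long smooth factor.
-/

set_option autoImplicit false

open Finset Filter

namespace Pool.Agent.MP_c853c5_nt.R

open Pool.Agent.MP_2a1f0e_nt Pool.Agent.MP_2a1f0e_nt.GM Pool.Agent.MP_2a1f0e_nt.DH
open Pool.Agent.MP_c853c5_nt.E MeasureTheory

lemma om_Wt (x : ℝ) : om x = om x * Wt x := by
  by_cases h : x ≤ 1 ∨ 5 / 3 ≤ x
  · rw [om_eq_zero h, zero_mul]
  · rw [not_or, not_le, not_le] at h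
    rw [Wt_eq_one h.1.le (by linarith [h.2]), mul_one]

lemma cut_Wm {y : ℝ} (hy : 0 < y) {L : ℕ} (hL : ⌊2 * y⌋₊ ≤ L) (F : ℕ → ℂ) :
    ∑ n ∈ Icc 1 L, (om ((n : ℝ) / y) : ℂ) * F n =
      ∑ n ∈ Icc 1 ⌊2 * y⌋₊, (om ((n : ℝ) / y) : ℂ) * F n := by
  refine (sum_subset (Icc_subset_Icc_right hL) fun n hn hn' => ?_).symm
  have h1 : ⌊2 * y⌋₊ < n := by
    rw [mem_Icc] at hn hn'
    omega
  rw [Nat.floor_lt (by positivity)] at h1
  rw [om_eq_zero (Or.inr (by rw [le_div_iff₀ hy]; linarith)), Complex.ofReal_zero, zero_mul]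

/-- the factor `n ^ (-1/2)` is removed -/
lemma mel_Wm : ∃ C : ℝ, 0 < C ∧ ∀ (y : ℝ) (L : ℕ) (t : ℝ), 0 < y → ⌊2 * y⌋₊ ≤ L →
    ‖SZ om y L t‖ ≤ C * ∫ ξ : ℝ, kp ξ * (‖Zo y (t + ξ)‖ / √y) := by
  obtain ⟨C, hC, h⟩ := mel_stmt _ _ _ sup_Wt.mul_hf.pos sup_Wt.mul_hf.sm sup_Wt.mul_hf.z
  obtain ⟨φ, hφ, hb, he⟩ := h 0 (by simp)
  refine ⟨C, hC, fun y L t hy hL => ?_⟩
  have hi : ∀ n : ℕ, Integrable fun ξ : ℝ =>
      φ ξ * (pw y (-ξ) * ((om ((n : ℝ) / y) : ℂ) * pw (n : ℝ) (t + ξ))) := fun n =>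
    ((integrable_kp.const_mul C).mul_const 1).mono'
      (hφ.mul (((continuous_pw y).comp continuous_neg).mul (continuous_const.mul
        ((continuous_pw _).comp (continuous_const.add continuous_id))))).aestronglyMeasurable
      (Eventually.of_forall fun ξ => by
        rw [norm_mul, norm_mul, norm_mul, norm_pw, norm_pw, one_mul, mul_one, Complex.norm_real]
        exact mul_le_mul (hb ξ) (abs_oc_le y n) (norm_nonneg _) (mul_nonneg hC.le (kp_pos ξ).le))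
  have key : SZ om y L t = (hf y : ℂ) * ∫ ξ : ℝ, φ ξ * (pw y (-ξ) * Zo y (t + ξ)) := by
    unfold SZ Zo PP
    simp only [mul_sum, Complex.ofReal_mul, mul_assoc (om _ : ℂ)]
    rw [integral_finsetSum _ fun n _ => hi n, mul_sum, cut_Wm hy hL]
    refine sum_congr rfl fun n hn => ?_
    have hn0 : (0 : ℝ) < n := by exact_mod_cast (mem_Icc.1 hn).1
    have e : ∀ ξ : ℝ, φ ξ * (pw y (-ξ) * ((om ((n : ℝ) / y) : ℂ) * pw (n : ℝ) (t + ξ))) =
        φ ξ * pw ((n : ℝ) / y) ξ * ((om ((n : ℝ) / y) : ℂ) * pw (n : ℝ) t) := by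
      intro ξ
      rw [pw_div hn0.ne' hy.ne', pw_add]
      ring
    have e1 : hf (n : ℝ) = hf y * hf ((n : ℝ) / y) := by
      rw [← hf_mul hy.le, mul_div_cancel₀ _ hy.ne']
    simp only [e]
    rw [integral_mul_const, ← he _ (div_pos hn0 hy), Complex.cpow_zero, e1]
    conv_lhs => rw [om_Wt]
    push_cast
    ring
  have hc : Continuous fun s => ‖Zo y s‖ / √y := (continuous_Zo y).norm.div_const _
  rw [key, ← integral_const_mul, ← integral_const_mul]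
  refine norm_integral_le_of_norm_le ((int_kp_bdd hc (fun s =>
    (abs_of_nonneg (by positivity)).trans_le (div_Zo_le hy s)) t).const_mul C)
    (Eventually.of_forall fun ξ => ?_)
  rw [norm_mul, norm_mul, norm_mul, norm_pw, one_mul, Complex.norm_real,
    Real.norm_of_nonneg (hf_nonneg _), hf, one_div_mul_eq_div, mul_div_assoc, ← mul_assoc]
  exact mul_le_mul_of_nonneg_right (hb ξ) (by positivity)

/-- the scales of the partition of unity -/
noncomputable def yj (j : ℕ) : ℝ := 4 / 5 * (4 / 3) ^ j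

lemma yj_pos (j : ℕ) : 0 < yj j := by unfold yj; positivity

lemma yj_mono {i j : ℕ} (h : i ≤ j) : yj i ≤ yj j :=
  mul_le_mul_of_nonneg_left (pow_le_pow_right₀ (by norm_num) h) (by norm_num)

lemma tel_Wm (J : ℕ) {m : ℝ} (hm : 1 ≤ m) : psi (m / yj J) = ∑ j ∈ range J, om (m / yj j) := by
  induction J with
  | zero => exact psi_eq_zero (by rw [le_div_iff₀ (yj_pos 0), yj]; linarith)
  | succ J ih =>
    rw [sum_range_succ, ← ih, om, add_sub_cancel]
    congr 1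
    rw [yj, yj, pow_succ]
    field_simp

lemma ZW_Wm (J M : ℕ) (t : ℝ) :
    ZW M (fun m => psi (m / yj J)) t = ∑ j ∈ range J, SZ om (yj j) M t := by
  unfold ZW SZ PP
  rw [sum_comm]
  refine sum_congr rfl fun m hm => ?_
  dsimp only
  rw [tel_Wm J (by exact_mod_cast (mem_Icc.1 hm).1), sum_mul, Complex.ofReal_sum, sum_mul]

lemma one_Wm (t : ℝ) : 1 ≤ ‖Zo (4 / 5) t‖ / √(4 / 5) := by
  have e : Zo (4 / 5) t = 1 := by
    rw [Zo, PP, show ⌊2 * (4 / 5 : ℝ)⌋₊ = 1 by rw [Nat.floor_eq_iff (by norm_num)]; norm_num,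
      Icc_self, sum_singleton, Nat.cast_one, pw_one, om, psi_eq_one (by norm_num),
      psi_eq_zero (by norm_num)]
    simp
  rw [e, norm_one, le_div_iff₀ (by positivity), one_mul]
  exact Real.sqrt_le_one.2 (by norm_num)

lemma ZS_Wm {y : ℝ} (hy : 5 ≤ y) (t : ℝ) : ZS y t = Zo y t := by
  unfold ZS FP Zo PP
  refine sum_subset (fun l hl => ?_) fun l _ hl => ?_
  · rw [mem_Ioc] at hl
    refine mem_Icc.2 ⟨by omega, hl.2.trans (Nat.le_floor ?_)⟩
    push_cast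
    linarith [Nat.floor_le (show 0 ≤ y by linarith)]
  · have h : oc y l = 0 := by
      by_contra h
      exact hl (mem_of_oc_ne_zero hy h)
    rw [h, Complex.ofReal_zero, zero_mul]

lemma sqrt_ZW {M : ℕ} {c : ℕ → ℝ} (hc : ∀ m, 0 ≤ c m ∧ c m ≤ 1) (t : ℝ) :
    ‖ZW M c t‖ ≤ 2 * √M := by
  have e : ZW M c t = NP M (fun m => (c m : ℂ)) t := by
    simp only [ZW, NP, Complex.ofReal_mul, mul_comm]
  rw [e]
  exact norm_NP_le M (fun m => by
    rw [Complex.norm_real, Real.norm_of_nonneg (hc m).1]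
    exact (hc m).2) t

/-- one range of heights -/
lemma ht_Wm (j : ℕ) : ∃ C : ℝ, 1 ≤ C ∧ ∀ (T P y Ω J₀ : ℝ) (L : ℕ), 1 ≤ P → P ≤ T → 5 ≤ y →
    √y * (17 * T) ≤ P ^ j → 1 ≤ J₀ → (∀ n : ℕ, (4 / 3 : ℝ) ^ n ≤ 5 * T * P → (n : ℝ) + 1 ≤ J₀) →
    (∀ y' : ℝ, 0 < y' → y' ^ 2 ≤ T * (36 * P ^ 2) →
      WB (fun t => ‖Zo y' t‖ / √y') T (4 * T) L Ω) →
    WB (fun t => ‖ZS y t‖ / √y) (4 / 3 * T) (8 / 3 * T) L (C * (P * J₀) ^ 4 * Ω) := by
  obtain ⟨C1, hC1, h1⟩ := mel_Wm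
  obtain ⟨C2, hC2, h2⟩ := pt_w (sup_om.mul (g := fun x => √x)
    fun _ hx => Real.contDiffAt_sqrt hx.ne') j
  set κ : ℝ := 8192 * 13825 with hκ
  have hκ1 : 1 ≤ κ := by norm_num [hκ]
  refine ⟨1 + C2 ^ 4 * (16 * (κ * ((1 + C1 ^ 4) * κ))), le_add_of_nonneg_right (by positivity),
    fun T P y Ω J₀ L hP hT hy hE hJ hJ' H => ?_⟩
  have hT1 : 1 ≤ T := hP.trans hT
  have hy0 : 0 < y := by linarith
  have hP2 : 1 ≤ P ^ 2 := one_le_pow₀ hP
  have o1 : WB (fun _ => 1) T (4 * T) L Ω := by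
    have := (H (4 / 5) (by norm_num) (by nlinarith)).mono (lam := 1) (F := fun _ => 1)
      fun t _ _ => ⟨zero_le_one, by rw [one_mul]; exact one_Wm t⟩
    rwa [one_pow, one_mul] at this
  have hΩ := o1.nonneg
  have hPJ : 1 ≤ (P * J₀) ^ 4 := one_le_pow₀ (one_le_mul_of_one_le_of_one_le hP hJ)
  rcases le_total (y ^ 2) T with hc | hc
  · simp only [ZS_Wm hy]
    refine (H y hy0 (by nlinarith)).weak (by linarith) (by linarith) ?_
    exact le_mul_of_one_le_left hΩ (one_le_mul_of_one_le_of_one_le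
      (le_add_of_nonneg_right (by positivity)) hPJ)
  have s0 : 1 ≤ √T := Real.one_le_sqrt.2 hT1
  have s1 : √T ≤ y := Real.sqrt_le_iff.2 ⟨hy0.le, hc⟩
  have s2 : √T * √T = T := Real.mul_self_sqrt (by linarith)
  obtain ⟨n, n1, n2⟩ := exists_nat_pow_near (x := 5 * √T * P) (y := (4 / 3 : ℝ)) (by nlinarith)
    (by norm_num)
  have n3 : ((n + 1 : ℕ) : ℝ) ≤ J₀ := by
    push_cast
    exact hJ' n (n1.trans (by gcongr; nlinarith))
  have y1 : 4 * √T * P ≤ yj (n + 1) := by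
    rw [yj]
    linarith
  have y2 : yj (n + 1) ≤ 6 * √T * P := by
    rw [yj, pow_succ]
    nlinarith
  have y3 : ∀ i, i ≤ n + 1 → yj i ^ 2 ≤ T * (36 * P ^ 2) := fun i hi => by
    refine (pow_le_pow_left₀ (yj_pos i).le ((yj_mono hi).trans y2) 2).trans_eq ?_
    rw [mul_pow, mul_pow, Real.sq_sqrt (by linarith)]
    ring
  generalize n + 1 = J at n3 y1 y2 y3
  set M' := ⌊2 * yj J⌋₊ with hM'
  set c : ℕ → ℝ := fun m => psi (m / yj J) with hcd
  have c1 : ∀ m, 0 ≤ c m ∧ c m ≤ 1 := fun m => ⟨psi_nonneg _, psi_le_one _⟩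
  have q1 : 8192 * (1 + 13824 * P ^ 2) ≤ κ * P ^ 2 := by rw [hκ]; linarith
  have a1 : ∀ i ∈ range J, WB (fun t => ‖SZ om (yj i) M' t‖) (7 / 6 * T) (17 / 6 * T) L
      ((1 + C1 ^ 4) * (κ * P ^ 2 * Ω)) := fun i hi => by
    have hi' := (mem_range.1 hi).le
    have b1 := WB.shift (G := fun t => ‖Zo (yj i) t‖ / √(yj i)) (a := 7 / 6 * T)
      (b := 17 / 6 * T) (R := T / 6) (Q := 13824 * P ^ 2)
      ((continuous_Zo _).norm.div_const _) (fun t => ⟨by positivity, div_Zo_le (yj_pos i) t⟩)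
      (by linarith)
      (by
        rw [mul_pow, show √(yj i) ^ 4 = (√(yj i) ^ 2) ^ 2 by ring, Real.sq_sqrt (yj_pos i).le]
        nlinarith [y3 i hi'])
      ((H _ (yj_pos i) (y3 i hi')).weak (by linarith) (by linarith) le_rfl)
      (o1.weak (by linarith) (by linarith) le_rfl)
    refine (b1.mono fun t _ _ => ⟨norm_nonneg _, h1 _ M' t (yj_pos i)
      (Nat.floor_le_floor (by linarith [yj_mono hi']))⟩).weak le_rfl le_rfl ?_
    gcongr
    exact le_add_of_nonneg_left zero_le_one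
  set Ω₁ := J₀ ^ 4 * ((1 + C1 ^ 4) * (κ * P ^ 2 * Ω)) with hΩ₁
  have w1 : Ω ≤ Ω₁ := by
    rw [hΩ₁, ← mul_assoc, ← mul_assoc]
    refine le_mul_of_one_le_left hΩ (one_le_mul_of_one_le_of_one_le
      (one_le_mul_of_one_le_of_one_le (one_le_pow₀ hJ) (le_add_of_nonneg_right (by positivity)))
      (one_le_mul_of_one_le_of_one_le hκ1 hP2))
  have a2 : WB (fun t => ‖ZW M' c t‖) (7 / 6 * T) (17 / 6 * T) L Ω₁ := by
    refine ((WB.sum (range J) (fun _ _ _ => norm_nonneg _) a1).mono (lam := 1) fun t _ _ =>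
      ⟨norm_nonneg _, by rw [one_mul, hcd, ZW_Wm]; exact norm_sum_le _ _⟩).weak le_rfl le_rfl ?_
    rw [one_pow, one_mul, card_range, hΩ₁]
    gcongr
  have m1 : (M' : ℝ) ≤ 2 * yj J := Nat.floor_le (by linarith [yj_pos J])
  have a3 := WB.shift (G := fun t => ‖ZW M' c t‖) (a := 4 / 3 * T) (b := 8 / 3 * T) (R := T / 6)
    (Q := 13824 * P ^ 2) (continuous_PP _ _).norm (fun t => ⟨norm_nonneg _, sqrt_ZW c1 t⟩)
    (by linarith)
    (by
      rw [mul_pow, show √(M' : ℝ) ^ 4 = (√(M' : ℝ) ^ 2) ^ 2 by ring,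
        Real.sq_sqrt (Nat.cast_nonneg _)]
      nlinarith [y3 J le_rfl, pow_le_pow_left₀ (Nat.cast_nonneg _) m1 2])
    (a2.weak (by linarith) (by linarith) le_rfl) (o1.weak (by linarith) (by linarith) w1)
  have hΩ1 : 0 ≤ Ω₁ := hΩ.trans w1
  have a4 := WB.add (Ω := κ * P ^ 2 * Ω₁)
    (fun t => integral_nonneg fun ξ => mul_nonneg (kp_pos ξ).le (norm_nonneg _))
    (fun _ => zero_le_one) (a3.weak le_rfl le_rfl (by gcongr))
    (o1.weak (by linarith) (by linarith) (w1.trans (le_mul_of_one_le_left hΩ1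
      (one_le_mul_of_one_le_of_one_le hκ1 hP2))))
  refine (a4.mono (lam := C2) fun t t1 t2 => ⟨by positivity, ?_⟩).weak le_rfl le_rfl ?_
  · have t0 : 0 ≤ t := by linarith
    have k := h2 y (2 * ⌊y⌋₊) ⌊yj J⌋₊ M' c t (by linarith)
      (by
        have : (5 : ℝ) ≤ (⌊y⌋₊ : ℕ) := by exact_mod_cast Nat.le_floor (by exact_mod_cast hy)
        push_cast
        linarith [Nat.lt_floor_add_one y])
      (Nat.floor_le_floor (by linarith [yj_pos J])) c1 fun m hm => psi_eq_one (by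
        rw [div_le_one (yj_pos J)]
        exact (Nat.le_floor_iff (yj_pos J).le).1 hm)
    rw [ZS_eq_Av hy, norm_mul, Complex.norm_real, Real.norm_of_nonneg (Real.sqrt_nonneg _),
      mul_div_cancel_left₀ _ (Real.sqrt_pos.2 hy0).ne']
    refine k.trans (mul_le_mul_of_nonneg_left ?_ hC2.le)
    rw [add_assoc, abs_of_nonneg t0]
    refine add_le_add le_rfl ?_
    have p0 : 0 < P ^ j := by positivity
    have b1 : √y / (1 + t) ^ j ≤ √y * T / P ^ j := by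
      gcongr
      · exact le_mul_of_one_le_right (Real.sqrt_nonneg _) hT1
      · linarith
    have b2 : ((1 + t) / y) ^ 2 ≤ 16 * T := by
      rw [div_pow, div_le_iff₀ (by positivity)]
      nlinarith
    have b3 : (1 + t) / (y * (⌊yj J⌋₊ + 1)) ≤ 1 / P := by
      rw [div_le_div_iff₀ (by positivity) (by positivity)]
      have b4 : √T * (4 * √T * P) ≤ y * (⌊yj J⌋₊ + 1) :=
        mul_le_mul s1 (y1.trans (Nat.lt_floor_add_one _).le) (by positivity) hy0.le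
      nlinarith
    have b5 : √y * ((1 + t) / y) ^ 2 * ((1 + t) / (y * (⌊yj J⌋₊ + 1))) ^ j ≤
        √y * (16 * T) / P ^ j := by
      rw [div_eq_mul_one_div _ (P ^ j), ← one_div_pow]
      gcongr
    refine (add_le_add b1 b5).trans ?_
    rw [← add_div, div_le_one p0]
    linarith
  · rw [hΩ₁]
    calc _ = C2 ^ 4 * (16 * (κ * ((1 + C1 ^ 4) * κ))) * (P * J₀) ^ 4 * Ω := by ring
      _ ≤ _ := by gcongr; linarith

end Pool.Agent.MP_c853c5_nt.R
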